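import Pool.Agent.Helper91.ZC.PlaneEquiv

/-!
# The Chow group of zero-cycles of a hypersurface of low degree

For a hypersurface of degree `d` in `ℙⁿ` with `2 (1² + … + (d - 2)²) + d² ≤ n` over a field all of
whose finite extensions are `C₂`, the Chow group of zero-cycles is generated by the class of any
rational point.
-/

set_option autoImplicit false

namespace ZC

universe u

section gen

variable {K : Type u} [Field K] {n r : ℕ}

/-- If any two points over a finite extension are rationally equivalent, the Chow group of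
zero-cycles is generated by the class of any rational point. -/
theorem CH0_gen_of (X : ProjVar K n r)
    (h : ∀ (L : Type u) [Field L] [Algebra K L] [FiniteDimensional K L] (x y : Fin (n + 1) → L)
      (hx : X.IsPt x) (hy : X.IsPt y), ptCycle X x hx - ptCycle X y hy ∈ ratEquiv X)
    (x : Fin (n + 1) → K) (hx : X.IsPt x) (c : CH0 X) : ∃ m : ℤ, c = m • cls X x hx := by
  have key : ∀ P : ClosedPoint X, ∃ m : ℤ, CH0.mk X (Finsupp.single P 1) = m • cls X x hx := by
    intro P
    obtain ⟨L, _, _, hfd, y, hy, hP⟩ := single_eq_ptCycle X P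
    have hx' := isPt_algebraMap X (L := L) x hx
    have e3 := CH0.mk_eq_zero X (h L (fun i => algebraMap K L (x i)) y hx' hy)
    rw [map_sub, sub_eq_zero] at e3
    obtain ⟨m, hm⟩ := ptCycle_algebraMap X (L := L) x hx hx'
    refine ⟨m, ?_⟩
    rw [hP, ← e3, hm, map_zsmul]
    rfl
  obtain ⟨c, rfl⟩ := CH0.mk_surjective X c
  induction c using Finsupp.induction_linear with
  | zero => exact ⟨0, by rw [zero_zsmul, map_zero]⟩
  | add f g hf hg =>
    obtain ⟨a, ha⟩ := hf
    obtain ⟨b, hb⟩ := hg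
    exact ⟨a + b, by rw [add_zsmul, map_add, ha, hb]⟩
  | single P a =>
    obtain ⟨m, hm⟩ := key P
    refine ⟨a * m, ?_⟩
    have : Finsupp.single P a = a • Finsupp.single P (1 : ℤ) := by
      rw [Finsupp.smul_single, smul_eq_mul, mul_one]
    rw [this, map_zsmul, hm, ← mul_zsmul', mul_comm]

end gen

section hyp

variable {K L : Type u} [Field K] [Field L] [Algebra K L] [FiniteDimensional K L] {n : ℕ}

theorem osc_equiv (hL : C2 L) (X : ProjVar K n 1) (hd : 2 ≤ X.d 0)
    (hn : 2 * ∑ j ∈ Finset.range (X.d 0 - 1), j ^ 2 + (X.d 0) ^ 2 ≤ n) (x z : Fin (n + 1) → L)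
    (hx : X.IsPt x) (hz : X.IsPt z) {c : L} (h : Osc X x z c) :
    ptCycle X x hx - ptCycle X z hz ∈ ratEquiv X := by
  by_cases hc : c = 0
  · subst hc
    exact line_equiv X x z hx hz (h.line hx)
  · have h1 : ∑ j ∈ Finset.range (X.d 0), j ^ 2 < n := by
      obtain ⟨m, hm⟩ : ∃ m, X.d 0 = m + 2 := ⟨X.d 0 - 2, by omega⟩
      rw [hm] at hn ⊢
      rw [Finset.sum_range_succ]
      have h2 : m + 2 - 1 = m + 1 := by omega
      rw [h2] at hn
      have h3 : (m + 1) ^ 2 < (m + 2) ^ 2 := Nat.pow_lt_pow_left (by omega) (by omega)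
      omega
    obtain ⟨z', e, -, h3, h4⟩ := exists_tan hL X (by omega) h1 x hx
    exact plane_equiv X hx hz hc h h4 h3

/-- Any two points of a hypersurface of low degree are rationally equivalent. -/
theorem hyp_equiv (hL : C2 L) (X : ProjVar K n 1) (hd : 0 < X.d 0)
    (hn : 2 * ∑ j ∈ Finset.range (X.d 0 - 1), j ^ 2 + (X.d 0) ^ 2 ≤ n) (x y : Fin (n + 1) → L)
    (hx : X.IsPt x) (hy : X.IsPt y) : ptCycle X x hx - ptCycle X y hy ∈ ratEquiv X := by
  have e4 : ∀ a b c : ClosedPoint X →₀ ℤ, a - b = a - c - (b - c) := fun a b c => by abel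
  by_cases h2 : 2 ≤ X.d 0
  · obtain ⟨z, c, c', hz, h3, h4⟩ := exists_osc hL X h2 hn x y hx hy
    have e1 := osc_equiv hL X h2 hn x z hx hz h3
    have e2 := osc_equiv hL X h2 hn y z hy hz h4
    rw [e4 _ _ (ptCycle X z hz)]
    exact sub_mem e1 e2
  · have h1 : X.d 0 = 1 := by omega
    rw [h1] at hn
    obtain ⟨z, hz, h3, h4⟩ := exists_lines hL X (by
      rw [Fin.sum_univ_one, h1]
      simp only [one_pow, mul_one]
      simp at hn
      omega) x y hx hy
    have e1 := line_equiv X x z hx hz h3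
    have e2 := line_equiv X y z hy hz h4
    rw [e4 _ _ (ptCycle X z hz)]
    exact sub_mem e1 e2

end hyp

section final

variable {K : Type u} [Field K] {n : ℕ}

/-- The Chow group of zero-cycles of a hypersurface of low degree. -/
theorem CH0_gen_hyp (hK : ∀ (L : Type u) [Field L] [Algebra K L], FiniteDimensional K L → C2 L)
    (X : ProjVar K n 1) (hd : 0 < X.d 0)
    (hn : 2 * ∑ j ∈ Finset.range (X.d 0 - 1), j ^ 2 + (X.d 0) ^ 2 ≤ n) (x : Fin (n + 1) → K)
    (hx : X.IsPt x) (c : CH0 X) : ∃ m : ℤ, c = m • cls X x hx :=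
  CH0_gen_of X (fun L _ _ hfd x y hx hy => hyp_equiv (hK L hfd) X hd hn x y hx hy) x hx c

theorem exists_point_hyp (hK : C2 K) (X : ProjVar K n 1) (hd : 0 < X.d 0)
    (hn : 2 * ∑ j ∈ Finset.range (X.d 0 - 1), j ^ 2 + (X.d 0) ^ 2 ≤ n) :
    ∃ x : Fin (n + 1) → K, X.IsPt x :=
  exists_point hK X (fun i => by rw [Subsingleton.elim i 0]; exact hd) (by
    rw [Fin.sum_univ_one]
    omega)

end final

end ZC
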