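import Pool.Agent.Helper91.ZC.GenHyp

/-!
# Intersections of quadrics

Two points of an intersection of `r` quadrics in `ℙⁿ`, `6 r ≤ n + 4`, over a `C₂` field lie on a conic
or on a chain of lines in it.
-/

set_option autoImplicit false

namespace ZC

universe u

open Polynomial

section poly

variable {K L : Type u} [Field K] [Field L] [Algebra K L] [FiniteDimensional K L] {n r : ℕ}

/-- The points at `0` and `∞` of a curve on `V` with polynomial coordinates are rationally
equivalent. -/
theorem polycurve_equiv (V : ProjVar K n r) {x z : Fin (n + 1) → L} (hx : V.IsPt x)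
    (hz : V.IsPt z) (y : Fin (n + 1) → L[X]) (m : ℕ)
    (hdeg : ∀ i, (y i).natDegree ≤ m) {a b : L} (ha : a ≠ 0) (hb : b ≠ 0)
    (h0 : ∀ i, (y i).coeff 0 = a * x i) (h1 : ∀ i, (y i).coeff m = b * z i)
    (h : V.IsPt (fun i => algebraMap L[X] (RatFunc L) (y i))) :
    ptCycle V x hx - ptCycle V z hz ∈ ratEquiv V := by
  classical
  refine AddSubgroup.subset_closure ⟨RatFunc L, inferInstance, inferInstance,
    isCurveField_ratFunc, _, h, RatFunc.X, RatFunc.X_ne_zero, ?_⟩
  let w0 : Place K (RatFunc L) := zeroPlace K (RatFunc.X : RatFunc L) transcendental_X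
    RatFunc.adjoin_X
  let w1 : Place K (RatFunc L) := zeroPlace K (RatFunc.X⁻¹ : RatFunc L) transcendental_X_inv
    adjoin_X_inv
  have hv0 : w0.A.valuation (RatFunc.X : RatFunc L) < 1 :=
    val_zeroPlace _ transcendental_X RatFunc.adjoin_X
  have hv1 : w1.A.valuation (RatFunc.X⁻¹ : RatFunc L) < 1 :=
    val_zeroPlace _ transcendental_X_inv adjoin_X_inv
  have hX0 : (RatFunc.X : RatFunc L) ≠ 0 := RatFunc.X_ne_zero
  have hne : w0 ≠ w1 := by
    intro hw
    rw [← hw, map_inv₀] at hv1
    have h2 : 0 < w0.A.valuation (RatFunc.X : RatFunc L) :=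
      zero_lt_iff.2 ((Valuation.ne_zero_iff _).2 hX0)
    exact absurd hv0 (not_lt.2 ((inv_lt_one₀ h2).1 hv1).le)
  have hsupp : ∀ w : Place K (RatFunc L), w ≠ w0 → w ≠ w1 → w.ord RatFunc.X = 0 := by
    intro w hw0 hw1
    rcases lt_trichotomy (w.A.valuation (RatFunc.X : RatFunc L)) 1 with hlt | heq | hgt
    · exact absurd (Place.unique_zero RatFunc.adjoin_X w w0 hlt hv0) hw0
    · exact Place.ord_of_unit w heq
    · refine absurd (Place.unique_zero adjoin_X_inv w w1 ?_ hv1) hw1
      rw [map_inv₀]
      exact inv_lt_one_of_one_lt₀ hgt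
  have e0 : w0.ord (RatFunc.X : RatFunc L) = 1 :=
    Place.ord_t w0 transcendental_X RatFunc.adjoin_X hv0
  have e1 : w1.ord (RatFunc.X : RatFunc L) = -1 := by
    have := Place.ord_t_inv w1 transcendental_X_inv adjoin_X_inv hv1
    rwa [inv_inv] at this
  have hal : ∀ p : L[X], algebraMap L[X] (RatFunc L) p = aeval (RatFunc.X : RatFunc L) p := by
    intro p
    rw [← RatFunc.algebraMap_X, aeval_algebraMap_apply, aeval_X_left_apply]
  have c0 : ptCycle V (red w0 _ h.1) (red_isPt V w0 _ h) = ptCycle V x hx := by
    refine ptCycle_red_of V w0 _ h (algebraMap L (RatFunc L) a)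
      (fun i => ⟨aeval (RatFunc.X : RatFunc L) (C a⁻¹ * y i), Place.aeval_mem w0 hv0 _⟩)
      (fun i => ?_) (Place.resEquiv w0 hv0 RatFunc.adjoin_X) hx fun i => ?_
    · change algebraMap L[X] (RatFunc L) (y i) =
        algebraMap L (RatFunc L) a * aeval (RatFunc.X : RatFunc L) (C a⁻¹ * y i)
      rw [map_mul, aeval_C, ← mul_assoc, ← map_mul, mul_inv_cancel₀ ha, map_one, one_mul, hal]
    · rw [Place.residue_aeval w0 hv0, coeff_C_mul, h0, inv_mul_cancel_left₀ ha,
        Place.resEquiv_apply]
  have c1 : ptCycle V (red w1 _ h.1) (red_isPt V w1 _ h) = ptCycle V z hz := by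
    refine ptCycle_red_of V w1 _ h (algebraMap L (RatFunc L) b * RatFunc.X ^ m)
      (fun i => ⟨aeval (RatFunc.X⁻¹ : RatFunc L) (C b⁻¹ * reflect m (y i)),
        Place.aeval_mem w1 hv1 _⟩)
      (fun i => ?_) (Place.resEquiv w1 hv1 adjoin_X_inv) hz fun i => ?_
    · change algebraMap L[X] (RatFunc L) (y i) = algebraMap L (RatFunc L) b * RatFunc.X ^ m *
        aeval (RatFunc.X⁻¹ : RatFunc L) (C b⁻¹ * reflect m (y i))
      have iX : Invertible (RatFunc.X : RatFunc L) := invertibleOfNonzero hX0
      have h2 := eval₂_reflect_mul_pow (algebraMap L (RatFunc L)) (RatFunc.X : RatFunc L) m (y i)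
        (hdeg i)
      rw [invOf_eq_inv, ← aeval_def, ← aeval_def] at h2
      rw [hal, ← h2, map_mul, aeval_C, map_inv₀]
      have h3 : algebraMap L (RatFunc L) b ≠ 0 := (_root_.map_ne_zero _).2 hb
      field_simp
    · rw [Place.residue_aeval w1 hv1, coeff_C_mul, coeff_reflect, revAt_le (Nat.zero_le m),
        Nat.sub_zero, h1, inv_mul_cancel_left₀ hb, Place.resEquiv_apply]
  rw [curveCycle, finsum_eq_sum_of_support_subset (s := {w0, w1}), Finset.sum_pair hne, e0, e1,
    c0, c1, one_smul, neg_smul, one_smul, sub_eq_add_neg]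
  intro w hw
  rw [Function.mem_support] at hw
  by_contra hcon
  simp only [Finset.coe_insert, Finset.coe_singleton, Set.mem_insert_iff,
    Set.mem_singleton_iff, not_or] at hcon
  exact hw (by rw [hsupp w hcon.1 hcon.2, zero_smul])

/-- Two points of a plane section which is a conic. -/
theorem conic_equiv (V : ProjVar K n r) {x w z : Fin (n + 1) → L} (hx : V.IsPt x)
    (hw : V.IsPt w) {p γ δ ρ : L} (μ : Fin r → L) (hp : p ≠ 0)
    (hV : ∀ (i : Fin r) (R : Type u) [CommRing R] [Algebra K R] [Algebra L R]
      [IsScalarTower K L R] (a b c : R),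
      MvPolynomial.aeval (fun k => a * algebraMap L R (x k) + b * algebraMap L R (w k) +
        c * algebraMap L R (z k)) (V.form i) = algebraMap L R (μ i) *
          (a * b * algebraMap L R p + a * c * algebraMap L R γ + b * c * algebraMap L R δ +
            c ^ 2 * algebraMap L R ρ))
    (hz : ∀ α β : L, (fun k => α * x k + β * w k) ≠ z) :
    ptCycle V x hx - ptCycle V w hw ∈ ratEquiv V := by
  set σ : L := -δ / p with hσ
  have hδ : δ = -(p * σ) := by
    rw [hσ]
    field_simp
  by_cases he : σ * γ + ρ = 0
  · -- two lines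
    set v : Fin (n + 1) → L := fun k => -δ * x k + -γ * w k + p * z k with hv
    have hρ : ρ = -(σ * γ) := by linear_combination he
    have hvX : V.IsPt v := by
      refine ⟨fun h0 => hz (δ / p) (γ / p) ?_, fun i => ?_⟩
      · funext k
        have h1 := congrFun h0 k
        rw [hv, Pi.zero_apply] at h1
        field_simp
        linear_combination -h1
      · have h1 := hV i L (-δ) (-γ) p
        simp only [Algebra.algebraMap_self, RingHom.id_apply] at h1
        rw [hv, h1, hρ, hδ]
        ring
    have h1 : ptCycle V x hx - ptCycle V v hvX ∈ ratEquiv V := by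
      refine line_equiv V x v hx hvX (isPt_line V x v hx.1 fun i => ?_)
      have h2 := hV i (RatFunc L) (1 - RatFunc.X * RatFunc.C δ) (-(RatFunc.X * RatFunc.C γ))
        (RatFunc.X * RatFunc.C p)
      have h3 : (fun k => (1 - RatFunc.X * RatFunc.C δ) * algebraMap L (RatFunc L) (x k) +
          -(RatFunc.X * RatFunc.C γ) * algebraMap L (RatFunc L) (w k) +
          RatFunc.X * RatFunc.C p * algebraMap L (RatFunc L) (z k)) =
          fun k => RatFunc.C (x k) + RatFunc.X * RatFunc.C (v k) := by
        funext k
        rw [hv]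
        simp only [RatFunc.algebraMap_eq_C, map_add, map_mul, map_neg]
        ring
      rw [h3] at h2
      rw [h2, hρ, hδ]
      simp only [RatFunc.algebraMap_eq_C, map_mul, map_neg]
      ring
    have h2 : ptCycle V w hw - ptCycle V v hvX ∈ ratEquiv V := by
      refine line_equiv V w v hw hvX (isPt_line V w v hw.1 fun i => ?_)
      have h2 := hV i (RatFunc L) (-(RatFunc.X * RatFunc.C δ)) (1 - RatFunc.X * RatFunc.C γ)
        (RatFunc.X * RatFunc.C p)
      have h3 : (fun k => -(RatFunc.X * RatFunc.C δ) * algebraMap L (RatFunc L) (x k) +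
          (1 - RatFunc.X * RatFunc.C γ) * algebraMap L (RatFunc L) (w k) +
          RatFunc.X * RatFunc.C p * algebraMap L (RatFunc L) (z k)) =
          fun k => RatFunc.C (w k) + RatFunc.X * RatFunc.C (v k) := by
        funext k
        rw [hv]
        simp only [RatFunc.algebraMap_eq_C, map_add, map_mul, map_neg]
        ring
      rw [h3] at h2
      rw [h2, hρ, hδ]
      simp only [RatFunc.algebraMap_eq_C, map_mul, map_neg]
      ring
    have h3 := sub_mem h1 h2
    rwa [sub_sub_sub_cancel_right] at h3
  · -- a conic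
    rw [← neg_sub]
    refine (ratEquiv V).neg_mem (polycurve_equiv V hw hx
      (fun k => C p * X * ((C σ + X) * C (x k) + C (z k)) -
        ((C σ + X) * C γ + C ρ) * C (w k)) 2 (fun k => ?_) (a := -(σ * γ + ρ)) (b := p)
        (neg_ne_zero.2 he) hp (fun k => ?_) (fun k => ?_) ⟨fun h0 => ?_, fun i => ?_⟩)
    · have h1 : (C p * X * ((C σ + X) * C (x k) + C (z k)) -
        ((C σ + X) * C γ + C ρ) * C (w k) : L[X]) = C (p * x k) * X ^ 2 +
          C (p * (σ * x k + z k) - γ * w k) * X + C (-((σ * γ + ρ) * w k)) := by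
        simp only [map_add, map_mul, map_sub, map_neg]
        ring
      rw [h1]
      exact natDegree_quadratic_le
    · simp only [coeff_zero_eq_eval_zero, eval_sub, eval_mul, eval_add, eval_C, eval_X]
      ring
    · have h1 : (C p * X * ((C σ + X) * C (x k) + C (z k)) -
        ((C σ + X) * C γ + C ρ) * C (w k) : L[X]) = C (p * x k) * X ^ 2 +
          C (p * (σ * x k + z k) - γ * w k) * X + C (-((σ * γ + ρ) * w k)) := by
        simp only [map_add, map_mul, map_sub, map_neg]
        ring
      rw [h1, coeff_add, coeff_add, coeff_C_mul_X_pow, coeff_C_mul_X, coeff_C]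
      simp
    · obtain ⟨k, hk⟩ := Function.ne_iff.1 hw.1
      have h1 := congrFun h0 k
      simp only [Pi.zero_apply] at h1
      have h2 := (map_eq_zero_iff _ (RatFunc.algebraMap_injective L)).mp h1
      have h3 := congrArg (eval 0) h2
      simp only [eval_sub, eval_mul, eval_add, eval_C, eval_X, eval_zero] at h3
      have h4 : (σ * γ + ρ) * w k = 0 := by linear_combination -h3
      exact (mul_ne_zero he hk) h4
    · have h2 := hV i (RatFunc L) (algebraMap L[X] (RatFunc L) (C p * X * (C σ + X)))
        (algebraMap L[X] (RatFunc L) (-((C σ + X) * C γ + C ρ)))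
        (algebraMap L[X] (RatFunc L) (C p * X))
      have h3 : (fun k => algebraMap L[X] (RatFunc L) (C p * X * (C σ + X)) *
          algebraMap L (RatFunc L) (x k) +
          algebraMap L[X] (RatFunc L) (-((C σ + X) * C γ + C ρ)) * algebraMap L (RatFunc L) (w k) +
          algebraMap L[X] (RatFunc L) (C p * X) * algebraMap L (RatFunc L) (z k)) =
          fun k => algebraMap L[X] (RatFunc L) (C p * X * ((C σ + X) * C (x k) + C (z k)) -
            ((C σ + X) * C γ + C ρ) * C (w k)) := by
        funext k
        simp only [RatFunc.algebraMap_eq_C, map_add, map_mul, map_neg, map_sub,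
          RatFunc.algebraMap_C, RatFunc.algebraMap_X]
        ring
      rw [h3] at h2
      rw [h2, hδ]
      simp only [RatFunc.algebraMap_eq_C, map_add, map_mul, map_neg,
        RatFunc.algebraMap_C, RatFunc.algebraMap_X]
      ring

end poly

section quad

open Finset

variable {R : Type*} [CommRing R] {N : ℕ}

/-- the quadratic form with coefficients `c` -/
def qf (c : Fin N → Fin N → R) (u : Fin N → R) : R := ∑ i, ∑ j, c i j * u i * u j

/-- its polar form -/
def bf (c : Fin N → Fin N → R) (u v : Fin N → R) : R :=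
  ∑ i, ∑ j, c i j * (u i * v j + v i * u j)

theorem qf_three (c : Fin N → Fin N → R) (x w z : Fin N → R) (a b e : R) :
    qf c (fun k => a * x k + b * w k + e * z k) = a ^ 2 * qf c x + b ^ 2 * qf c w +
      e ^ 2 * qf c z + a * b * bf c x w + a * e * bf c x z + b * e * bf c w z := by
  simp only [qf, bf, mul_sum, ← sum_add_distrib]
  refine sum_congr rfl fun i _ => sum_congr rfl fun j _ => ?_
  ring

theorem qf_sub (c c' : Fin N → Fin N → R) (m : R) (u : Fin N → R) :
    qf (fun i j => c i j - m * c' i j) u = qf c u - m * qf c' u := by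
  simp only [qf, mul_sum, ← sum_sub_distrib]
  refine sum_congr rfl fun i _ => sum_congr rfl fun j _ => ?_
  ring

theorem bf_sub (c c' : Fin N → Fin N → R) (m : R) (u v : Fin N → R) :
    bf (fun i j => c i j - m * c' i j) u v = bf c u v - m * bf c' u v := by
  simp only [bf, mul_sum, ← sum_sub_distrib]
  refine sum_congr rfl fun i _ => sum_congr rfl fun j _ => ?_
  ring

theorem degree_two {d : Fin N →₀ ℕ} (hd : d.degree = 2) :
    ∃ i j, d = Finsupp.single i 1 + Finsupp.single j 1 := by
  classical
  have hne : ∀ e : Fin N →₀ ℕ, e.degree ≠ 0 → ∃ (i : Fin N) (e' : Fin N →₀ ℕ),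
      e = Finsupp.single i 1 + e' ∧ e.degree = 1 + e'.degree := by
    intro e he
    have h1 : e ≠ 0 := fun h => he (by rw [h, map_zero])
    obtain ⟨i, hi⟩ := Finsupp.ne_iff.1 h1
    rw [Finsupp.zero_apply] at hi
    have h2 : Finsupp.single i 1 ≤ e := by
      rw [Finsupp.single_le_iff]
      omega
    refine ⟨i, e - Finsupp.single i 1, (add_tsub_cancel_of_le h2).symm, ?_⟩
    conv_lhs => rw [← add_tsub_cancel_of_le h2]
    rw [map_add, Finsupp.degree_single]
  obtain ⟨i, e, h1, h2⟩ := hne d (by rw [hd]; exact two_ne_zero)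
  obtain ⟨j, e', h3, h4⟩ := hne e (by omega)
  have h5 : e' = 0 := (Finsupp.degree_eq_zero_iff e').1 (by omega)
  exact ⟨i, j, by rw [h1, h3, h5, add_zero]⟩

/-- A quadratic form is given by coefficients. -/
theorem exists_coeffs {K : Type*} [Field K] {q : MvPolynomial (Fin N) K}
    (hq : q.IsHomogeneous 2) : ∃ c : Fin N → Fin N → K, ∀ (R : Type*) [CommRing R]
      [Algebra K R] (u : Fin N → R), MvPolynomial.aeval u q =
        qf (fun i j => algebraMap K R (c i j)) u := by
  classical
  have h1 : ∀ d : q.support, ∃ p : Fin N × Fin N,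
      (d : Fin N →₀ ℕ) = Finsupp.single p.1 1 + Finsupp.single p.2 1 := by
    rintro ⟨d, hd⟩
    have h2 := hq.degree_eq_sum_deg_support hd
    have h3 : d.degree = 2 := by rw [h2]; rfl
    obtain ⟨i, j, h4⟩ := degree_two h3
    exact ⟨(i, j), h4⟩
  choose p hp using h1
  refine ⟨fun i j => ∑ d : q.support, if (i, j) = p d then q.coeff d else 0, ?_⟩
  intro R _ _ u
  have h2 : ∀ d : q.support, ∏ k, u k ^ (d : Fin N →₀ ℕ) k = u (p d).1 * u (p d).2 := by
    intro d
    rw [hp d]
    simp only [Finsupp.add_apply, pow_add, prod_mul_distrib, Finsupp.single_apply]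
    congr 1
    · rw [prod_eq_single (p d).1]
      · rw [if_pos rfl, pow_one]
      · intro k _ hk
        rw [if_neg (Ne.symm hk), pow_zero]
      · intro h
        exact absurd (mem_univ _) h
    · rw [prod_eq_single (p d).2]
      · rw [if_pos rfl, pow_one]
      · intro k _ hk
        rw [if_neg (Ne.symm hk), pow_zero]
      · intro h
        exact absurd (mem_univ _) h
  rw [MvPolynomial.aeval_def, MvPolynomial.eval₂_eq', ← sum_coe_sort q.support]
  simp only [h2]
  have h3 : qf (fun i j => algebraMap K R (∑ d : q.support, if (i, j) = p d then q.coeff d else 0))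
      u = ∑ e : Fin N × Fin N, ∑ d : q.support,
        if e = p d then algebraMap K R (q.coeff d) * u e.1 * u e.2 else 0 := by
    rw [Fintype.sum_prod_type]
    unfold qf
    refine sum_congr rfl fun i _ => sum_congr rfl fun j _ => ?_
    beta_reduce
    rw [map_sum, sum_mul, sum_mul]
    refine sum_congr rfl fun d _ => ?_
    split_ifs
    · rfl
    · rw [map_zero, zero_mul, zero_mul]
  rw [h3, sum_comm]
  refine sum_congr rfl fun d _ => ?_
  rw [sum_ite_eq' univ (p d), if_pos (mem_univ _), mul_assoc]

theorem map_qf {S : Type*} [CommRing S] (φ : R →+* S) (c : Fin N → Fin N → R)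
    (u : Fin N → R) : φ (qf c u) = qf (fun i j => φ (c i j)) fun k => φ (u k) := by
  simp only [qf, map_sum, map_mul]

theorem map_bf {S : Type*} [CommRing S] (φ : R →+* S) (c : Fin N → Fin N → R)
    (u v : Fin N → R) :
    φ (bf c u v) = bf (fun i j => φ (c i j)) (fun k => φ (u k)) fun k => φ (v k) := by
  simp only [bf, map_sum, map_mul, map_add]

/-- the polar form as a linear form -/
noncomputable def linForm (c : Fin N → Fin N → R) (v : Fin N → R) : MvPolynomial (Fin N) R :=
  ∑ a, ∑ b, MvPolynomial.C (c a b) *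
    (MvPolynomial.C (v a) * MvPolynomial.X b + MvPolynomial.X a * MvPolynomial.C (v b))

/-- the quadratic form as a polynomial -/
noncomputable def quadForm (c : Fin N → Fin N → R) : MvPolynomial (Fin N) R :=
  ∑ a, ∑ b, MvPolynomial.C (c a b) * MvPolynomial.X a * MvPolynomial.X b

theorem eval_linForm (c : Fin N → Fin N → R) (v z : Fin N → R) :
    MvPolynomial.eval z (linForm c v) = bf c v z := by
  simp [linForm, bf]

theorem eval_quadForm (c : Fin N → Fin N → R) (z : Fin N → R) :
    MvPolynomial.eval z (quadForm c) = qf c z := by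
  simp [quadForm, qf]

theorem hom_linForm (c : Fin N → Fin N → R) (v : Fin N → R) :
    (linForm c v).IsHomogeneous 1 := by
  refine MvPolynomial.IsHomogeneous.sum _ _ _ fun a _ =>
    MvPolynomial.IsHomogeneous.sum _ _ _ fun b _ => ?_
  have h1 : (MvPolynomial.C (v a) * MvPolynomial.X b : MvPolynomial (Fin N) R).IsHomogeneous 1 := by
    have := (MvPolynomial.isHomogeneous_C (Fin N) (v a)).mul (MvPolynomial.isHomogeneous_X R b)
    rwa [zero_add] at this
  have h2 : (MvPolynomial.X a * MvPolynomial.C (v b) : MvPolynomial (Fin N) R).IsHomogeneous 1 := by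
    have := (MvPolynomial.isHomogeneous_X R a).mul (MvPolynomial.isHomogeneous_C (Fin N) (v b))
    rwa [add_zero] at this
  have h3 := (MvPolynomial.isHomogeneous_C (Fin N) (c a b)).mul (h1.add h2)
  rwa [zero_add] at h3

theorem hom_quadForm (c : Fin N → Fin N → R) : (quadForm c).IsHomogeneous 2 := by
  refine MvPolynomial.IsHomogeneous.sum _ _ _ fun a _ =>
    MvPolynomial.IsHomogeneous.sum _ _ _ fun b _ => ?_
  have h3 := ((MvPolynomial.isHomogeneous_C (Fin N) (c a b)).mul
    (MvPolynomial.isHomogeneous_X R a)).mul (MvPolynomial.isHomogeneous_X R b)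
  rwa [zero_add] at h3

end quad

section main

variable {K L : Type u} [Field K] [Field L] [Algebra K L] [FiniteDimensional K L] {n r : ℕ}

/-- **Any two points of an intersection of quadrics are rationally equivalent.** -/
theorem quad_equiv (hL : C2 L) (V : ProjVar K n r) (hd : ∀ i, V.d i = 2)
    (hn : 6 * r ≤ n + 4) (x w : Fin (n + 1) → L) (hx : V.IsPt x) (hw : V.IsPt w) :
    ptCycle V x hx - ptCycle V w hw ∈ ratEquiv V := by
  classical
  have hc : ∀ i, ∃ c : Fin (n + 1) → Fin (n + 1) → K, ∀ (R : Type u) [CommRing R]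
      [Algebra K R] (u : Fin (n + 1) → R), MvPolynomial.aeval u (V.form i) =
        qf (fun a b => algebraMap K R (c a b)) u := by
    intro i
    have h1 := V.hom i
    rw [hd i] at h1
    exact exists_coeffs h1
  choose cK hcK using hc
  set c : Fin r → Fin (n + 1) → Fin (n + 1) → L := fun i a b => algebraMap K L (cK i a b) with hcdef
  have hval : ∀ i (u : Fin (n + 1) → L), MvPolynomial.aeval u (V.form i) = qf (c i) u :=
    fun i u => hcK i L u
  have hx0 : ∀ i, qf (c i) x = 0 := fun i => by rw [← hval]; exact hx.2 i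
  have hw0 : ∀ i, qf (c i) w = 0 := fun i => by rw [← hval]; exact hw.2 i
  -- the form on a plane
  have hplane : ∀ (z : Fin (n + 1) → L) (i : Fin r) (R : Type u) [CommRing R] [Algebra K R]
      [Algebra L R] [IsScalarTower K L R] (a b e : R),
      MvPolynomial.aeval (fun k => a * algebraMap L R (x k) + b * algebraMap L R (w k) +
        e * algebraMap L R (z k)) (V.form i) =
          a * b * algebraMap L R (bf (c i) x w) + a * e * algebraMap L R (bf (c i) x z) +
            b * e * algebraMap L R (bf (c i) w z) + e ^ 2 * algebraMap L R (qf (c i) z) := by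
    intro z i R _ _ _ _ a b e
    rw [hcK i R]
    have h1 : (fun a b => algebraMap K R (cK i a b)) = fun a b => algebraMap L R (c i a b) := by
      funext a b
      rw [hcdef, ← IsScalarTower.algebraMap_apply K L R]
    rw [h1, qf_three, ← map_qf, ← map_qf, ← map_qf, ← map_bf, ← map_bf, ← map_bf, hx0, hw0,
      map_zero]
    ring
  by_cases hall : ∀ i, bf (c i) x w = 0
  · refine line_equiv V x w hx hw (isPt_line V x w hx.1 fun i => ?_)
    have h1 := hplane w i (RatFunc L) 1 RatFunc.X 0
    rw [hall] at h1
    simp only [map_zero, mul_zero, zero_mul, add_zero, ne_eq, OfNat.ofNat_ne_zero,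
      not_false_eq_true, zero_pow, one_mul] at h1
    exact h1
  · push Not at hall
    obtain ⟨i₀, hi₀⟩ := hall
    -- two independent coordinates
    obtain ⟨k₁, k₂, hk⟩ : ∃ k₁ k₂, x k₁ * w k₂ - x k₂ * w k₁ ≠ 0 := by
      by_contra hcon
      push Not at hcon
      obtain ⟨j, hj⟩ := Function.ne_iff.1 hx.1
      apply hi₀
      obtain ⟨l, h1⟩ : ∃ l : L, w = fun k => l * x k := by
        refine ⟨w j / x j, ?_⟩
        funext k
        have h2 := hcon j k
        have hj' : x j ≠ 0 := hj
        field_simp
        linear_combination h2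
      have h2 : bf (c i₀) x w = l * (2 * qf (c i₀) x) := by
        rw [h1]
        simp only [bf, qf, Finset.mul_sum]
        refine Finset.sum_congr rfl fun a _ => Finset.sum_congr rfl fun b _ => ?_
        ring
      rw [h2, hx0, mul_zero, mul_zero]
    set μ : Fin r → L := fun i => bf (c i) x w / bf (c i₀) x w with hμ
    set e : Fin r → Fin (n + 1) → Fin (n + 1) → L := fun i a b => c i a b - μ i * c i₀ a b with he
    let ι := Fin 2 ⊕ ({i : Fin r // i ≠ i₀} × Fin 3)
    let dg : ι → ℕ := Sum.elim (fun _ => 1) (fun q => ![1, 1, 2] q.2)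
    let f : ι → MvPolynomial (Fin (n + 1)) L := Sum.elim (fun s => MvPolynomial.X (![k₁, k₂] s))
      (fun q => ![linForm (e q.1) x, linForm (e q.1) w, quadForm (e q.1)] q.2)
    have hf : ∀ q, (f q).IsHomogeneous (dg q) := by
      rintro (q | ⟨q, s⟩)
      · exact MvPolynomial.isHomogeneous_X _ _
      · fin_cases s
        · exact hom_linForm _ _
        · exact hom_linForm _ _
        · exact hom_quadForm _
    have hdg : ∀ q, 0 < dg q := by
      rintro (q | ⟨q, s⟩)
      · exact Nat.one_pos
      · fin_cases s
        · exact Nat.one_pos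
        · exact Nat.one_pos
        · exact Nat.two_pos
    have hcard : Fintype.card {i : Fin r // i ≠ i₀} = r - 1 := by
      simp
    have hr : 0 < r := Fin.pos i₀
    have hsum : ∑ q, dg q ^ 2 < Fintype.card (Fin (n + 1)) := by
      rw [Fintype.sum_sum_type, Fintype.sum_prod_type, Fintype.card_fin]
      have h1 : ∀ i : {i : Fin r // i ≠ i₀}, ∑ s : Fin 3, dg (Sum.inr (i, s)) ^ 2 = 6 := by
        intro i
        rw [Fin.sum_univ_three]
        rfl
      simp only [h1, Finset.sum_const, Finset.card_univ, hcard, smul_eq_mul]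
      have h2 : ∑ s : Fin 2, dg (Sum.inl s) ^ 2 = 2 := by
        rw [Fin.sum_univ_two]
        rfl
      rw [h2]
      omega
    obtain ⟨z, hz0, hz⟩ := (Pool.Agent.Helper91.ZC.c2_iff.mp hL) ι (Fin (n + 1)) f dg hf hdg hsum
    have hz1 : z k₁ = 0 := by
      have := hz (Sum.inl 0)
      simpa [f] using this
    have hz2 : z k₂ = 0 := by
      have := hz (Sum.inl 1)
      simpa [f] using this
    have hzx : ∀ i, bf (e i) x z = 0 := by
      intro i
      by_cases hi : i = i₀
      · subst hi
        have : e i = fun a b => c i a b - 1 * c i a b := by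
          rw [he, hμ]
          funext a b
          beta_reduce
          rw [div_self hi₀]
        rw [this, bf_sub]
        ring
      · rw [← eval_linForm]
        exact hz (Sum.inr (⟨i, hi⟩, 0))
    have hzw : ∀ i, bf (e i) w z = 0 := by
      intro i
      by_cases hi : i = i₀
      · subst hi
        have : e i = fun a b => c i a b - 1 * c i a b := by
          rw [he, hμ]
          funext a b
          beta_reduce
          rw [div_self hi₀]
        rw [this, bf_sub]
        ring
      · rw [← eval_linForm]
        exact hz (Sum.inr (⟨i, hi⟩, 1))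
    have hzz : ∀ i, qf (e i) z = 0 := by
      intro i
      by_cases hi : i = i₀
      · subst hi
        have : e i = fun a b => c i a b - 1 * c i a b := by
          rw [he, hμ]
          funext a b
          beta_reduce
          rw [div_self hi₀]
        rw [this, qf_sub]
        ring
      · rw [← eval_quadForm]
        exact hz (Sum.inr (⟨i, hi⟩, 2))
    refine conic_equiv V hx hw (z := z) (p := bf (c i₀) x w) (γ := bf (c i₀) x z)
      (δ := bf (c i₀) w z) (ρ := qf (c i₀) z) μ hi₀ ?_ ?_
    · intro i R _ _ _ _ a b t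
      rw [hplane z i R a b t]
      have h1 : bf (c i) x w = μ i * bf (c i₀) x w := by
        rw [hμ]
        beta_reduce
        rw [div_mul_cancel₀ _ hi₀]
      have h2 : bf (c i) x z = μ i * bf (c i₀) x z := by
        have := hzx i
        rw [he] at this
        beta_reduce at this
        rw [bf_sub] at this
        exact sub_eq_zero.1 this
      have h3 : bf (c i) w z = μ i * bf (c i₀) w z := by
        have := hzw i
        rw [he] at this
        beta_reduce at this
        rw [bf_sub] at this
        exact sub_eq_zero.1 this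
      have h4 : qf (c i) z = μ i * qf (c i₀) z := by
        have := hzz i
        rw [he] at this
        beta_reduce at this
        rw [qf_sub] at this
        exact sub_eq_zero.1 this
      rw [h1, h2, h3, h4]
      simp only [map_mul]
      ring
    · intro α β h
      apply hz0
      have h1 := congrFun h k₁
      have h2 := congrFun h k₂
      simp only [hz1, hz2] at h1 h2
      have h3 : α * (x k₁ * w k₂ - x k₂ * w k₁) = 0 := by
        linear_combination w k₂ * h1 - w k₁ * h2
      have h4 : β * (x k₁ * w k₂ - x k₂ * w k₁) = 0 := by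
        linear_combination x k₁ * h2 - x k₂ * h1
      have h5 := (mul_eq_zero.1 h3).resolve_right hk
      have h6 := (mul_eq_zero.1 h4).resolve_right hk
      rw [← h, h5, h6]
      funext k
      simp

end main

section final

variable {K : Type u} [Field K] {n r : ℕ}

/-- The Chow group of zero-cycles of an intersection of quadrics. -/
theorem CH0_gen_quad (hK : ∀ (L : Type u) [Field L] [Algebra K L], FiniteDimensional K L → C2 L)
    (X : ProjVar K n r) (hd : ∀ i, X.d i = 2) (hn : 6 * r ≤ n + 4) (x : Fin (n + 1) → K)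
    (hx : X.IsPt x) (c : CH0 X) : ∃ m : ℤ, c = m • cls X x hx :=
  CH0_gen_of X (fun L _ _ hfd x y hx hy => quad_equiv (hK L hfd) X hd hn x y hx hy) x hx c

theorem exists_point_quad (hK : C2 K) (X : ProjVar K n r) (hd : ∀ i, X.d i = 2)
    (hn : 4 * r ≤ n) : ∃ x : Fin (n + 1) → K, X.IsPt x :=
  exists_point hK X (fun i => by rw [hd i]; exact two_pos) (by
    simp only [hd, Finset.sum_const, Finset.card_univ, Fintype.card_fin, smul_eq_mul]
    omega)

end final

end ZC
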