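import Pool.Agent.Helper91.ZC.C2

/-!
# Two lines in an intersection of hypersurfaces of low degree

`two_lines` : if `x`, `x₀` are zeros of forms `gᵢ` of degrees `dᵢ` in `n + 1` variables over a field
with the property `C₂`, and `∑ dᵢ (2 dᵢ² + 1) ≤ 3 n`, then there is `z ≠ 0` such that the `gᵢ` vanish
on the lines through `x`, `z` and through `x₀`, `z`.
-/

set_option autoImplicit false

open MvPolynomial

namespace Pool.Agent.Helper91.ZC

/-- the restriction of `g` to the line `x + T z` -/
noncomputable def onLine {L σ : Type*} [CommRing L] (x z : σ → L) (g : MvPolynomial σ L) :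
    Polynomial L :=
  eval₂ Polynomial.C (fun k => Polynomial.C (x k) + Polynomial.X * Polynomial.C (z k)) g

/-- the restriction of `g` to the generic line through `x` -/
noncomputable def genLine {L σ : Type*} [CommRing L] (x : σ → L) (g : MvPolynomial σ L) :
    Polynomial (MvPolynomial σ L) :=
  eval₂ (Polynomial.C.comp C) (fun k => Polynomial.C (C (x k)) + Polynomial.X * Polynomial.C (X k)) g

/-- the coefficient of `T ^ j` is a form of degree `j` -/
def Graded {L σ : Type*} [CommRing L] (P : Polynomial (MvPolynomial σ L)) : Prop :=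
  ∀ j, (P.coeff j).IsHomogeneous j

section

variable {L σ : Type*} [CommRing L]

lemma Graded.add {P Q : Polynomial (MvPolynomial σ L)} (hP : Graded P) (hQ : Graded Q) :
    Graded (P + Q) := by
  intro j
  rw [Polynomial.coeff_add]
  exact (hP j).add (hQ j)

lemma Graded.mul {P Q : Polynomial (MvPolynomial σ L)} (hP : Graded P) (hQ : Graded Q) :
    Graded (P * Q) := by
  intro j
  rw [Polynomial.coeff_mul]
  refine IsHomogeneous.sum _ _ _ fun q hq => ?_
  have h1 := (hP q.1).mul (hQ q.2)
  have h2 : q.1 + q.2 = j := Finset.HasAntidiagonal.mem_antidiagonal.mp hq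
  rwa [h2] at h1

lemma Graded.const (a : L) : Graded (Polynomial.C (C a : MvPolynomial σ L)) := by
  intro j
  rw [Polynomial.coeff_C]
  split_ifs with h
  · rw [h]
    exact isHomogeneous_C _ _
  · exact isHomogeneous_zero _ _ _

lemma Graded.var (k : σ) : Graded (Polynomial.X * Polynomial.C (X k : MvPolynomial σ L)) := by
  intro j
  rw [Polynomial.X_mul_C, Polynomial.coeff_C_mul_X]
  split_ifs with h
  · rw [h]
    exact isHomogeneous_X _ _
  · exact isHomogeneous_zero _ _ _

lemma Graded.one : Graded (1 : Polynomial (MvPolynomial σ L)) := by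
  have := Graded.const (σ := σ) (1 : L)
  simpa using this

lemma Graded.pow {P : Polynomial (MvPolynomial σ L)} (hP : Graded P) (n : ℕ) : Graded (P ^ n) := by
  induction n with
  | zero => simpa using Graded.one
  | succ n ih =>
    rw [pow_succ]
    exact ih.mul hP

lemma graded_genLine (x : σ → L) (g : MvPolynomial σ L) : Graded (genLine x g) := by
  classical
  unfold genLine
  rw [eval₂_eq]
  have h0 : ∀ s : Finset (σ →₀ ℕ), Graded (∑ d ∈ s, (Polynomial.C.comp C) (coeff d g) *
      ∏ i ∈ d.support, (Polynomial.C (C (x i)) + Polynomial.X * Polynomial.C (X i)) ^ d i) := by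
    intro s
    induction s using Finset.induction_on with
    | empty => intro j; simpa using isHomogeneous_zero _ _ _
    | insert d s hd ih =>
      rw [Finset.sum_insert hd]
      refine Graded.add ((Graded.const _).mul ?_) ih
      generalize d.support = t
      induction t using Finset.induction_on with
      | empty => simpa using Graded.one
      | insert a t ha ih' =>
        rw [Finset.prod_insert ha]
        exact (((Graded.const _).add (Graded.var _)).pow _).mul ih'
  exact h0 _

lemma map_genLine (x z : σ → L) (g : MvPolynomial σ L) :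
    (genLine x g).map (eval z) = onLine x z g := by
  unfold genLine onLine
  rw [← Polynomial.coe_mapRingHom, hom_eval₂]
  have h1 : (Polynomial.mapRingHom (eval z)).comp (Polynomial.C.comp C) = Polynomial.C := by
    ext a
    simp
  rw [h1]
  congr 1
  funext k
  simp

lemma coeff_prod_le {R κ : Type*} [CommRing R] (s : Finset κ) (f : κ → Polynomial R) (n : κ → ℕ)
    (h : ∀ i ∈ s, (f i).natDegree ≤ n i) : (∏ i ∈ s, f i).natDegree ≤ ∑ i ∈ s, n i ∧
      (∏ i ∈ s, f i).coeff (∑ i ∈ s, n i) = ∏ i ∈ s, (f i).coeff (n i) := by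
  classical
  induction s using Finset.induction_on with
  | empty => simp
  | insert a s ha ih =>
    obtain ⟨h1, h2⟩ := ih fun i hi => h i (Finset.mem_insert_of_mem hi)
    have h3 := h a (Finset.mem_insert_self _ _)
    rw [Finset.prod_insert ha, Finset.sum_insert ha, Finset.prod_insert ha]
    refine ⟨Polynomial.natDegree_mul_le.trans (Nat.add_le_add h3 h1), ?_⟩
    rw [Polynomial.coeff_mul_add_eq_of_natDegree_le h3 h1, h2]

lemma natDegree_linear {R : Type*} [CommRing R] (a b : R) :
    (Polynomial.C a + Polynomial.X * Polynomial.C b).natDegree ≤ 1 := by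
  refine (Polynomial.natDegree_add_le _ _).trans (max_le ?_ ?_)
  · rw [Polynomial.natDegree_C]
    exact Nat.zero_le _
  · rw [Polynomial.X_mul_C]
    simpa using Polynomial.natDegree_C_mul_X_pow_le b 1

/-- the value on a line: the degree, the constant coefficient and the leading coefficient -/
lemma onLine_facts {g : MvPolynomial σ L} {e : ℕ} (hg : g.IsHomogeneous e) (x z : σ → L) :
    (onLine x z g).natDegree ≤ e ∧ (onLine x z g).coeff e = eval z g ∧
      (onLine x z g).coeff 0 = eval x g := by
  classical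
  refine ⟨?_, ?_, ?_⟩
  · unfold onLine
    rw [eval₂_eq]
    refine Polynomial.natDegree_sum_le_of_forall_le _ _ fun d hd => ?_
    refine (Polynomial.natDegree_C_mul_le _ _).trans ?_
    rw [hg.degree_eq_sum_deg_support hd]
    refine (coeff_prod_le _ _ (fun i => d i) fun i _ => ?_).1
    refine Polynomial.natDegree_pow_le.trans ?_
    exact (Nat.mul_le_mul_left _ (natDegree_linear _ _)).trans (by rw [mul_one])
  · unfold onLine
    rw [eval₂_eq, Polynomial.finsetSum_coeff, eval_eq]
    refine Finset.sum_congr rfl fun d hd => ?_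
    rw [Polynomial.coeff_C_mul]
    congr 1
    rw [hg.degree_eq_sum_deg_support hd]
    rw [(coeff_prod_le _ _ (fun i => d i) fun i _ => Polynomial.natDegree_pow_le.trans
      ((Nat.mul_le_mul_left _ (natDegree_linear _ _)).trans (by rw [mul_one]))).2]
    refine Finset.prod_congr rfl fun i _ => ?_
    have h1 := Polynomial.coeff_pow_of_natDegree_le (natDegree_linear (x i) (z i)) (m := d i)
    rw [mul_one] at h1
    rw [h1]
    congr 1
    rw [Polynomial.coeff_add, Polynomial.X_mul_C, Polynomial.coeff_C_mul_X]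
    simp
  · rw [Polynomial.coeff_zero_eq_eval_zero]
    unfold onLine
    rw [← Polynomial.coe_evalRingHom, hom_eval₂]
    have h1 : (Polynomial.evalRingHom (0 : L)).comp Polynomial.C = RingHom.id L := by
      ext a
      simp
    rw [h1, eval₂_id]
    congr 1
    congr 1
    funext k
    simp

end

lemma sum_squares (d : ℕ) : 3 * (∑ j : Fin d, ((j : ℕ) + 1) ^ 2 + ∑ j : Fin (d - 1), ((j : ℕ) + 1) ^ 2) =
    d * (2 * d ^ 2 + 1) := by
  have h1 : ∀ m : ℕ, 6 * ∑ j : Fin m, ((j : ℕ) + 1) ^ 2 = m * (m + 1) * (2 * m + 1) := by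
    intro m
    induction m with
    | zero => simp
    | succ m ih =>
      rw [Fin.sum_univ_castSucc, mul_add]
      simp only [Fin.val_castSucc, Fin.val_last]
      rw [ih]
      ring
  rcases Nat.eq_zero_or_pos d with rfl | hd
  · simp
  · obtain ⟨d, rfl⟩ : ∃ d', d = d' + 1 := ⟨d - 1, by omega⟩
    have h2 := h1 (d + 1)
    have h3 := h1 d
    rw [Nat.add_sub_cancel]
    have h4 : 6 * (∑ j : Fin (d + 1), ((j : ℕ) + 1) ^ 2 + ∑ j : Fin d, ((j : ℕ) + 1) ^ 2) =
        2 * ((d + 1) * (2 * (d + 1) ^ 2 + 1)) := by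
      rw [mul_add, h2, h3]
      ring
    omega

/-- **Two lines.** -/
theorem two_lines {L : Type*} [Field L] (hL : C2 L) (n r : ℕ) (d : Fin r → ℕ)
    (g : Fin r → MvPolynomial (Fin (n + 1)) L) (hg : ∀ i, (g i).IsHomogeneous (d i))
    (hd : ∑ i, d i * (2 * d i ^ 2 + 1) ≤ 3 * n) (x x₀ : Fin (n + 1) → L)
    (hx : ∀ i, eval x (g i) = 0) (hx₀ : ∀ i, eval x₀ (g i) = 0) :
    ∃ z : Fin (n + 1) → L, z ≠ 0 ∧ ∀ i, onLine x z (g i) = 0 ∧ onLine x₀ z (g i) = 0 := by
  classical
  let ι := (Σ i : Fin r, Fin (d i)) ⊕ (Σ i : Fin r, Fin (d i - 1))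
  let e : ι → ℕ := Sum.elim (fun q => q.2 + 1) (fun q => q.2 + 1)
  let f : ι → MvPolynomial (Fin (n + 1)) L :=
    Sum.elim (fun q => (genLine x (g q.1)).coeff (q.2 + 1)) fun q => (genLine x₀ (g q.1)).coeff (q.2 + 1)
  have hf : ∀ q, (f q).IsHomogeneous (e q) := by
    rintro (q | q)
    · exact graded_genLine _ _ _
    · exact graded_genLine _ _ _
  have he : ∀ q, 0 < e q := by
    rintro (q | q)
    · exact Nat.succ_pos _
    · exact Nat.succ_pos _
  have hsum : ∑ q, e q ^ 2 < Fintype.card (Fin (n + 1)) := by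
    have h1 : 3 * ∑ q, e q ^ 2 = ∑ i, d i * (2 * d i ^ 2 + 1) := by
      rw [Fintype.sum_sum_type, Fintype.sum_sigma, Fintype.sum_sigma, ← Finset.sum_add_distrib,
        Finset.mul_sum]
      exact Finset.sum_congr rfl fun i _ => sum_squares (d i)
    rw [Fintype.card_fin]
    omega
  obtain ⟨z, hz0, hz⟩ := c2_iff.mp hL ι (Fin (n + 1)) f e hf he hsum
  have hz1 : ∀ i (j : ℕ), j < d i → (onLine x z (g i)).coeff (j + 1) = 0 := by
    intro i j hj
    rw [← map_genLine, Polynomial.coeff_map]
    exact hz (Sum.inl ⟨i, ⟨j, hj⟩⟩)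
  have hz2 : ∀ i (j : ℕ), j < d i - 1 → (onLine x₀ z (g i)).coeff (j + 1) = 0 := by
    intro i j hj
    rw [← map_genLine, Polynomial.coeff_map]
    exact hz (Sum.inr ⟨i, ⟨j, hj⟩⟩)
  refine ⟨z, hz0, fun i => ⟨?_, ?_⟩⟩
  · obtain ⟨h1, h2, h3⟩ := onLine_facts (hg i) x z
    ext j
    rw [Polynomial.coeff_zero]
    rcases j with _ | j
    · rw [h3, hx]
    · by_cases hj : j < d i
      · exact hz1 i j hj
      · exact Polynomial.coeff_eq_zero_of_natDegree_lt (by omega)
  · obtain ⟨h1, h2, h3⟩ := onLine_facts (hg i) x₀ z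
    obtain ⟨h1', h2', h3'⟩ := onLine_facts (hg i) x z
    ext j
    rw [Polynomial.coeff_zero]
    rcases j with _ | j
    · rw [h3, hx₀]
    · by_cases hj : j < d i - 1
      · exact hz2 i j hj
      · by_cases hj' : j + 1 = d i
        · rw [hj', h2, ← h2', ← hj']
          exact hz1 i j (by omega)
        · exact Polynomial.coeff_eq_zero_of_natDegree_lt (by omega)

end Pool.Agent.Helper91.ZC
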