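import Pool.Agent.Helper72.ZC.Defs
import Pool.Agent.Helper91.ZC.Two

/-!
# Rows C2, LINE1 and LINE2

The property `ZC.C2` of function fields over finite fields and of finite extensions, rational points
and pairs of intersecting lines on intersections of hypersurfaces of low degree.
-/

set_option autoImplicit false

open MvPolynomial

namespace ZC

universe u

open Pool.Agent.Helper91.ZC in
theorem C2.ratFunc (F : Type u) [Field F] [Finite F] : C2 (RatFunc F) :=
  c2_ratFunc F

open Pool.Agent.Helper91.ZC in
theorem C2.finite {K L : Type u} [Field K] [Field L] [Algebra K L] [FiniteDimensional K L]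
    (h : C2 K) : C2 L :=
  Pool.Agent.Helper91.ZC.C2.of_finite (K := K) (L := L) h

section line

variable {K L : Type u} [Field K] [Field L] [Algebra K L] {n r : ℕ}

/-- existence of a rational point -/
theorem exists_point (hK : C2 K) (X : ProjVar K n r) (hd : ∀ i, 0 < X.d i)
    (hn : ∑ i, X.d i ^ 2 ≤ n) : ∃ x : Fin (n + 1) → K, X.IsPt x := by
  obtain ⟨x, hx0, hx⟩ := hK (n + 1) r X.d X.form X.hom hd (Nat.lt_succ_of_le hn)
  refine ⟨x, hx0, fun i => ?_⟩
  rw [aeval_eq_eval]
  exact hx i

open Pool.Agent.Helper91.ZC in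
/-- the value of a form on a line -/
theorem aeval_line (x z : Fin (n + 1) → L) (f : MvPolynomial (Fin (n + 1)) K) :
    aeval (fun i => RatFunc.C (x i) + RatFunc.X * RatFunc.C (z i) : Fin (n + 1) → RatFunc L) f =
      algebraMap (Polynomial L) (RatFunc L) (onLine x z (MvPolynomial.map (algebraMap K L) f)) := by
  unfold onLine
  rw [hom_eval₂, eval₂_map, aeval_def]
  have h1 : ((algebraMap (Polynomial L) (RatFunc L)).comp Polynomial.C).comp (algebraMap K L) =
      algebraMap K (RatFunc L) := by
    ext a
    simp only [RingHom.comp_apply]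
    rw [← Polynomial.algebraMap_eq (R := L), ← IsScalarTower.algebraMap_apply K L (Polynomial L),
      ← IsScalarTower.algebraMap_apply K (Polynomial L) (RatFunc L)]
  rw [h1]
  congr 1
  funext k
  rw [map_add, map_mul, RatFunc.algebraMap_C, RatFunc.algebraMap_C, RatFunc.algebraMap_X]

open Pool.Agent.Helper91.ZC in
/-- two intersecting lines through two given points -/
theorem exists_lines (hL : C2 L) (X : ProjVar K n r)
    (hn : ∑ i, X.d i * (2 * X.d i ^ 2 + 1) ≤ 3 * n) (x y : Fin (n + 1) → L)
    (hx : X.IsPt x) (hy : X.IsPt y) :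
    ∃ z : Fin (n + 1) → L, X.IsPt z ∧
      X.IsPt (fun i => RatFunc.C (x i) + RatFunc.X * RatFunc.C (z i) : Fin (n + 1) → RatFunc L) ∧
      X.IsPt (fun i => RatFunc.C (y i) + RatFunc.X * RatFunc.C (z i) : Fin (n + 1) → RatFunc L) := by
  have key : ∀ w : Fin (n + 1) → L, ∀ i, eval w (MvPolynomial.map (algebraMap K L) (X.form i)) =
      aeval w (X.form i) := by
    intro w i
    rw [eval_map, aeval_def]
  obtain ⟨z, hz0, hz⟩ := two_lines hL n r X.d (fun i => MvPolynomial.map (algebraMap K L) (X.form i))
    (fun i => (X.hom i).map _) hn x y (fun i => by rw [key]; exact hx.2 i)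
    (fun i => by rw [key]; exact hy.2 i)
  have hne : ∀ w : Fin (n + 1) → L, w ≠ 0 →
      (fun i => RatFunc.C (w i) + RatFunc.X * RatFunc.C (z i) : Fin (n + 1) → RatFunc L) ≠ 0 := by
    intro w hw h
    apply hw
    funext i
    have h1 := congrFun h i
    have h2 : algebraMap (Polynomial L) (RatFunc L)
        (Polynomial.C (w i) + Polynomial.X * Polynomial.C (z i)) = 0 := by
      rw [map_add, map_mul, RatFunc.algebraMap_C, RatFunc.algebraMap_C, RatFunc.algebraMap_X]
      exact h1
    have h3 := (map_eq_zero_iff _ (RatFunc.algebraMap_injective L)).mp h2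
    have h4 := congrArg (Polynomial.coeff · 0) h3
    simpa using h4
  refine ⟨z, ⟨hz0, fun i => ?_⟩, ⟨hne x hx.1, fun i => ?_⟩, ⟨hne y hy.1, fun i => ?_⟩⟩
  · rw [← key, ← (onLine_facts ((X.hom i).map (algebraMap K L)) x z).2.1, (hz i).1,
      Polynomial.coeff_zero]
  · rw [aeval_line, (hz i).1, map_zero]
  · rw [aeval_line, (hz i).2, map_zero]

end line

end ZC
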