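import Pool.Agent.Helper25.PC.ZerosDeg

/-!
# Places of a function field of one variable over an arbitrary field

* `Place.dvr` : places are discrete valuation rings
* `Place.finite_residue` : residue fields are finite over the constant field
* `Place.finite_zeros`, `Place.finite_ord` : finitely many places above a nonzero element
-/

set_option autoImplicit false

namespace ZC

universe u

open PCl

variable {K E : Type u} [Field K] [Field E] [Algebra K E]

/-- every transcendental element has a `Rel` bound -/
def HRel (K E : Type u) [Field K] [Field E] [Algebra K E] : Prop :=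
  ∀ x : E, Transcendental K x → ∃ n, Rel K x n

theorem IsCurveField.hRel (hE : IsCurveField K E) : HRel K E := by
  obtain ⟨t, ht, hf⟩ := hE
  intro x hx
  obtain ⟨n, hn, -⟩ := hfin_of ht hf x hx
  exact ⟨n, hn⟩

namespace Place

/-- constants are units -/
theorem const_inv_mem (w : Place K E) {a : K} : (algebraMap K E a)⁻¹ ∈ w.A := by
  rw [← map_inv₀]
  exact w.mem _

/-- A nonzero non-unit of the ring of a place is transcendental. -/
theorem transcendental (w : Place K E) {z : E} (hz : z ∈ w.A.nonunits) (h0 : z ≠ 0) :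
    Transcendental K z := by
  intro halg
  have hint : IsIntegral K z := halg.isIntegral
  have h1 := minpoly.aeval K z
  have h2 : (minpoly K z).coeff 0 ≠ 0 := minpoly.coeff_zero_ne_zero hint h0
  have hzA : z ∈ w.A := w.A.nonunits_subset hz
  rw [← Polynomial.X_mul_divX_add (minpoly K z), map_add, map_mul, Polynomial.aeval_X,
    Polynomial.aeval_C] at h1
  have h3 : Polynomial.aeval z (minpoly K z).divX ∈ w.A := by
    have : IsScalarTower K w.A E := IsScalarTower.of_algebraMap_eq fun _ => rfl
    have h4 : Polynomial.aeval z (minpoly K z).divX =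
        ((Polynomial.aeval (⟨z, hzA⟩ : w.A) (minpoly K z).divX : w.A) : E) :=
      Polynomial.aeval_algebraMap_apply E (⟨z, hzA⟩ : w.A) (minpoly K z).divX
    rw [h4]
    exact SetLike.coe_mem _
  have h4 : z⁻¹ = -(Polynomial.aeval z (minpoly K z).divX *
      (algebraMap K E ((minpoly K z).coeff 0))⁻¹) := by
    have h5 : algebraMap K E ((minpoly K z).coeff 0) ≠ 0 :=
      fun h => h2 ((map_eq_zero_iff _ (algebraMap K E).injective).mp h)
    have h6 := eq_neg_of_add_eq_zero_right h1
    field_simp
    rw [h6]
  have h5 : z⁻¹ ∈ w.A := by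
    rw [h4]
    exact w.A.neg_mem _ (w.A.mul_mem _ _ h3 w.const_inv_mem)
  rcases (w.A.mem_nonunits_iff_or).mp hz with h | h
  · exact h0 h
  · exact h h5

/-- The quotient `A / z A` has dimension at most `n`. -/
theorem rank_quot_le (w : Place K E) {z : E} (htr : Transcendental K z) {n : ℕ} (hR : Rel K z n)
    (hz : z ∈ w.A) : Module.rank K (w.A ⧸ Ideal.span {(⟨z, hz⟩ : w.A)}) ≤ n := by
  have hq := quot_rank htr hR w.sub (fun y hy => w.A.mul_mem _ _ hz hy)
  let e : w.sub →ₗ[K] (w.A ⧸ Ideal.span {(⟨z, hz⟩ : w.A)}) :=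
    { toFun := fun y => Ideal.Quotient.mk _ ⟨y, y.2⟩
      map_add' := fun x y => by
        rw [← map_add]
        rfl
      map_smul' := fun a x => by
        rw [RingHom.id_apply, Algebra.smul_def, IsScalarTower.algebraMap_apply K w.A,
          Ideal.Quotient.algebraMap_eq, ← map_mul]
        congr 1
        apply Subtype.ext
        change a • (x : E) = algebraMap K E a * (x : E)
        rw [Algebra.smul_def] }
  have hker : (w.sub.map (LinearMap.mulLeft K z)).comap w.sub.subtype ≤ LinearMap.ker e := by
    intro x hx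
    rw [Submodule.mem_comap, Submodule.mem_map] at hx
    obtain ⟨y, hy, hyx⟩ := hx
    rw [LinearMap.mem_ker]
    change Ideal.Quotient.mk _ _ = 0
    rw [Ideal.Quotient.eq_zero_iff_mem, Ideal.mem_span_singleton]
    exact ⟨⟨y, hy⟩, Subtype.ext hyx.symm⟩
  have hsurj : Function.Surjective (Submodule.liftQ _ e hker) := by
    intro y
    obtain ⟨x, rfl⟩ := Ideal.Quotient.mk_surjective y
    exact ⟨Submodule.Quotient.mk ⟨x, x.2⟩, rfl⟩
  exact (LinearMap.rank_le_of_surjective _ hsurj).trans hq

theorem finite_quotient (hE : HRel K E) (w : Place K E) (z : w.A) (h0 : z ≠ 0) :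
    Module.Finite K (w.A ⧸ Ideal.span {z}) := by
  by_cases hu : IsUnit z
  · rw [Ideal.span_singleton_eq_top.2 hu]
    have : Subsingleton (w.A ⧸ (⊤ : Ideal w.A)) := Ideal.Quotient.subsingleton_iff.2 rfl
    infer_instance
  have hz : (z : E) ∈ w.A.nonunits := by
    rw [w.A.mem_nonunits_iff]
    refine lt_of_le_of_ne ((w.A.valuation_le_one_iff _).2 z.2) ?_
    intro h
    exact hu ((w.A.valuation_eq_one_iff z).2 h)
  have hz0 : (z : E) ≠ 0 := fun h => h0 (Subtype.ext h)
  have htr := w.transcendental hz hz0
  obtain ⟨n, hn⟩ := hE _ htr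
  rw [← Module.rank_lt_aleph0_iff]
  exact lt_of_le_of_lt (w.rank_quot_le htr hn z.2) (Cardinal.natCast_lt_aleph0 (n := n))

theorem not_isField (w : Place K E) : ¬ IsField w.A := by
  intro hF
  apply w.ne_top
  rw [eq_top_iff]
  intro x _
  rcases w.A.mem_or_inv_mem x with h | h
  · exact h
  · by_cases hx : x = 0
    · rw [hx]; exact w.A.zero_mem
    · obtain ⟨y, hy⟩ := hF.mul_inv_cancel (a := (⟨x⁻¹, h⟩ : w.A)) (by
        intro h'
        exact hx (inv_eq_zero.1 (congrArg Subtype.val h')))
      have h2 : x⁻¹ * (y : E) = 1 := congrArg Subtype.val hy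
      have h3 : x = y := by
        field_simp at h2
        exact h2.symm
      rw [h3]
      exact y.2

theorem dvr_of (hE : HRel K E) (w : Place K E) : IsDiscreteValuationRing w.A := by
  have hN : IsNoetherianRing w.A := by
    rw [isNoetherianRing_iff_ideal_fg]
    intro I
    by_cases hI : I = ⊥
    · rw [hI]; exact Submodule.fg_bot
    obtain ⟨z, hzI, hz0⟩ := Submodule.exists_mem_ne_zero_of_ne_bot hI
    have hfq := w.finite_quotient hE z hz0
    refine Submodule.fg_of_fg_map_of_fg_inf_ker (Submodule.mkQ (Ideal.span {z})) ?_ ?_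
    · have h1 : IsNoetherian K (w.A ⧸ Ideal.span {z}) := inferInstance
      have h2 : IsNoetherian w.A (w.A ⧸ Ideal.span {z}) := isNoetherian_of_tower K h1
      exact IsNoetherian.noetherian _
    · rw [Submodule.ker_mkQ, inf_eq_right.2 ((Ideal.span_singleton_le_iff_mem I).2 hzI)]
      exact Submodule.fg_span_singleton z
  have hval : ValuationRing w.A := inferInstance
  exact ((IsDiscreteValuationRing.TFAE w.A w.not_isField).out 0 1).2 hval

theorem finite_residue_of (hE : HRel K E) (w : Place K E) : Module.Finite K w.res := by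
  have hbot : IsLocalRing.maximalIdeal w.A ≠ ⊥ := by
    intro h
    exact w.not_isField (IsLocalRing.isField_iff_maximalIdeal_eq.2 h)
  obtain ⟨z, hz, hz0⟩ := Submodule.exists_mem_ne_zero_of_ne_bot hbot
  have hfq := w.finite_quotient hE z hz0
  have hle : Ideal.span {z} ≤ IsLocalRing.maximalIdeal w.A :=
    (Ideal.span_singleton_le_iff_mem _).2 hz
  refine Module.Finite.of_surjective (Ideal.Quotient.factorₐ K hle).toLinearMap ?_
  exact Ideal.Quotient.factor_surjective hle

theorem deg_pos_of (hE : HRel K E) (w : Place K E) : 0 < w.deg := by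
  have := w.finite_residue_of hE
  exact Module.finrank_pos

theorem isOrd_of (hE : HRel K E) (w : Place K E) : IsOrd w.A w.ord :=
  w.isOrd' (w.dvr_of hE)

/-- **Finitely many places lie above a nonzero element.** -/
theorem finite_zeros (hE : HRel K E) (z : E) (hz : z ≠ 0) :
    {w : Place K E | z ∈ w.A.nonunits}.Finite := by
  by_contra hinf
  obtain ⟨w0, hw0⟩ : ({w : Place K E | z ∈ w.A.nonunits}).Nonempty := Set.Infinite.nonempty hinf
  have htr := w0.transcendental hw0 hz
  obtain ⟨n, hn⟩ := hE z htr
  obtain ⟨T, hT, hcard⟩ := Set.Infinite.exists_subset_card_eq hinf (n + 1)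
  have h1 := zeros_le_deg (fun w => w.dvr_of hE) T hz htr hn
  have h2 : ∑ w ∈ T, 1 ≤ ∑ w ∈ T, (w.ord z).toNat * w.deg := by
    refine Finset.sum_le_sum fun w hw => ?_
    have h3 : 0 < w.ord z := ((w.isOrd_of hE).pos_iff hz).2 (hT hw)
    exact Nat.mul_pos (by omega) (w.deg_pos_of hE)
  rw [Finset.sum_const, smul_eq_mul, mul_one, hcard] at h2
  omega

/-- **Finitely many zeros and poles.** -/
theorem finite_ord (hE : HRel K E) (z : E) : {w : Place K E | w.ord z ≠ 0}.Finite := by
  by_cases hz : z = 0
  · subst hz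
    refine Set.finite_empty.subset fun w hw => hw ?_
    unfold Place.ord
    rw [dif_neg]
    rintro ⟨m, p, hp, hm⟩
    rw [map_zero] at hm
    have hp0 : (p : E) ≠ 0 := fun h => hp.ne_zero (Subtype.ext h)
    exact zpow_ne_zero m ((Valuation.ne_zero_iff _).2 hp0) hm.symm
  · refine ((finite_zeros hE z hz).union (finite_zeros hE z⁻¹ (inv_ne_zero hz))).subset ?_
    intro w hw
    have ho := w.isOrd_of hE
    rcases lt_or_gt_of_ne hw with h | h
    · right
      refine (ho.pos_iff (inv_ne_zero hz)).1 ?_
      rw [ho.inv hz]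
      omega
    · left
      exact (ho.pos_iff hz).1 h

theorem dvr (hE : IsCurveField K E) (w : Place K E) : IsDiscreteValuationRing w.A :=
  w.dvr_of hE.hRel

theorem finite_residue (hE : IsCurveField K E) (w : Place K E) : Module.Finite K w.res :=
  w.finite_residue_of hE.hRel

theorem deg_pos' (hE : IsCurveField K E) (w : Place K E) : 0 < w.deg :=
  w.deg_pos_of hE.hRel

end Place

end ZC
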