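import Pool.Agent.Helper72.ZC.Final
import Pool.Agent.Helper91.ZC.GenHyp
import Pool.Agent.Helper91.ZC.Quadrics

/-!
# The local-global complex for zero-cycles on hypersurfaces and on intersections of quadrics
-/

set_option autoImplicit false

namespace ZC

universe u

variable {F k : Type u} [Field F] [Field k] [Algebra F k]

theorem main_hyp [Finite F] (hk : IsCurveField F k) {n : ℕ} (X : ProjVar k n 1)
    (hd : 0 < X.d 0)
    (hn : 2 * ∑ j ∈ Finset.range (X.d 0 - 1), j ^ 2 + (X.d 0) ^ 2 ≤ n) :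
    ∃ (x : Fin (n + 1) → k) (hx : X.IsPt x), ∀ z : ∀ v : Place F k, ℕ → CH0 (X.map v.emb),
      (∀ v, IsCompat (z v)) →
      (∀ (f : k) (m : ℕ), f ≠ 0 → 0 < m → ∑ᶠ v : Place F k, constPairing v (z v m) f m = 0) →
      ∃ c : ℕ → ℤ, IsCompat c ∧ ∀ (v : Place F k) (m : ℕ), 0 < m →
        ∃ g, c m • cls (X.map v.emb) (fun i => v.emb (x i)) (isPt_map X v.emb hx) - z v m =
          m • g := by
  obtain ⟨x, hx⟩ := exists_point_hyp hk.c2 X hd hn
  exact ⟨x, hx, fun z hz horth => main_of_gen hk X x hx (fun v c =>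
    CH0_gen_hyp (fun L _ _ hL => (v.c2 hk).finite) (X.map v.emb) hd hn _ _ c) z hz horth⟩

theorem main_quad [Finite F] (hk : IsCurveField F k) {n r : ℕ} (X : ProjVar k n r)
    (hd : ∀ i, X.d i = 2) (h4 : 4 * r ≤ n) (h6 : 6 * r ≤ n + 4) :
    ∃ (x : Fin (n + 1) → k) (hx : X.IsPt x), ∀ z : ∀ v : Place F k, ℕ → CH0 (X.map v.emb),
      (∀ v, IsCompat (z v)) →
      (∀ (f : k) (m : ℕ), f ≠ 0 → 0 < m → ∑ᶠ v : Place F k, constPairing v (z v m) f m = 0) →
      ∃ c : ℕ → ℤ, IsCompat c ∧ ∀ (v : Place F k) (m : ℕ), 0 < m →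
        ∃ g, c m • cls (X.map v.emb) (fun i => v.emb (x i)) (isPt_map X v.emb hx) - z v m =
          m • g := by
  obtain ⟨x, hx⟩ := exists_point_quad hk.c2 X hd h4
  exact ⟨x, hx, fun z hz horth => main_of_gen hk X x hx (fun v c =>
    CH0_gen_quad (fun L _ _ hL => (v.c2 hk).finite) (X.map v.emb) hd h6 _ _ c) z hz horth⟩

end ZC
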