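import Mathlib

/-!
# Systems of forms over `C₂` fields

`HasC2 K`: a system of forms of positive degrees `eᵢ` in more than `∑ eᵢ²` variables over `K` has a
nontrivial common zero (Lang).

* `hasC2_fractionRing` : the field `F(t)`, `F` a finite field (Chevalley-Warning)
* `HasC2.of_finite` : finite extensions
* `HasC2.of_dense` : a locally compact (proper) normed field with a dense subfield `k`, `HasC2 k`
-/

set_option autoImplicit false

open MvPolynomial

namespace Pool.Agent.Helper91.ZC

/-- systems of forms of degrees `eᵢ ≥ 1` in more than `∑ eᵢ²` variables have a common zero -/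
def HasC2 (K : Type*) [Field K] : Prop :=
  ∀ (ι σ : Type) [Fintype ι] [Fintype σ] (f : ι → MvPolynomial σ K) (e : ι → ℕ),
    (∀ i, (f i).IsHomogeneous (e i)) → (∀ i, 0 < e i) → ∑ i, e i ^ 2 < Fintype.card σ →
    ∃ x : σ → K, x ≠ 0 ∧ ∀ i, eval x (f i) = 0

/-- the same with variables and forms numbered by natural numbers -/
def C2 (K : Type*) [Field K] : Prop :=
  ∀ (N r : ℕ) (e : Fin r → ℕ) (f : Fin r → MvPolynomial (Fin N) K),
    (∀ i, (f i).IsHomogeneous (e i)) → (∀ i, 0 < e i) → ∑ i, e i ^ 2 < N →
    ∃ x : Fin N → K, x ≠ 0 ∧ ∀ i, eval x (f i) = 0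

theorem c2_iff {K : Type*} [Field K] : C2 K ↔ HasC2 K := by
  constructor
  · intro h ι σ _ _ f e hf he hN
    classical
    let a := Fintype.equivFin ι
    let b := Fintype.equivFin σ
    obtain ⟨x, hx0, hx⟩ := h (Fintype.card σ) (Fintype.card ι) (fun i => e (a.symm i))
      (fun i => rename b (f (a.symm i))) (fun i => (hf _).rename_isHomogeneous) (fun i => he _)
      (by rw [a.symm.sum_comp (fun i => e i ^ 2)]; exact hN)
    refine ⟨fun s => x (b s), fun h0 => hx0 ?_, fun i => ?_⟩
    · funext t
      have := congrFun h0 (b.symm t)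
      simpa using this
    · have h1 := hx (a i)
      rw [eval_rename, Equiv.symm_apply_apply] at h1
      exact h1
  · intro h N r e f hf he hN
    exact h (Fin r) (Fin N) f e hf he (by rwa [Fintype.card_fin])

/-! ### evaluation of forms -/

lemma eval_smul {K σ : Type*} [Field K] {f : MvPolynomial σ K} {e : ℕ} (hf : f.IsHomogeneous e)
    (c : K) (x : σ → K) : eval (c • x) f = c ^ e * eval x f := by
  rw [eval_eq, eval_eq, Finset.mul_sum]
  refine Finset.sum_congr rfl fun d hd => ?_
  have h1 : ∏ i ∈ d.support, (c • x) i ^ d i = c ^ e * ∏ i ∈ d.support, x i ^ d i := by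
    simp only [Pi.smul_apply, smul_eq_mul, mul_pow, Finset.prod_mul_distrib]
    congr 1
    rw [Finset.prod_pow_eq_pow_sum, hf.degree_eq_sum_deg_support hd]
  rw [h1]
  ring

/-! ### the field of rational functions -/

section poly

variable {F : Type*} {σ : Type} [Field F]

/-- all coefficients are forms of degree `d` -/
def HomCoeff {τ : Type} (d : ℕ) (P : Polynomial (MvPolynomial τ F)) : Prop :=
  ∀ k, (P.coeff k).IsHomogeneous d

lemma HomCoeff.sum {τ κ : Type} {d : ℕ} (s : Finset κ) (P : κ → Polynomial (MvPolynomial τ F))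
    (h : ∀ i ∈ s, HomCoeff d (P i)) : HomCoeff d (∑ i ∈ s, P i) := by
  intro k
  rw [Polynomial.finsetSum_coeff]
  exact IsHomogeneous.sum _ _ _ fun i hi => h i hi k

lemma HomCoeff.mul {τ : Type} {d e : ℕ} {P Q : Polynomial (MvPolynomial τ F)}
    (h : HomCoeff d P) (h' : HomCoeff e Q) : HomCoeff (d + e) (P * Q) := by
  intro k
  rw [Polynomial.coeff_mul]
  exact IsHomogeneous.sum _ _ _ fun i _ => (h _).mul (h' _)

lemma HomCoeff.one {τ : Type} : HomCoeff 0 (1 : Polynomial (MvPolynomial τ F)) := by
  intro k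
  rw [Polynomial.coeff_one]
  split_ifs
  · exact isHomogeneous_one _ _
  · exact isHomogeneous_zero _ _ _

lemma HomCoeff.pow {τ : Type} {d : ℕ} {P : Polynomial (MvPolynomial τ F)}
    (h : HomCoeff d P) (n : ℕ) : HomCoeff (n * d) (P ^ n) := by
  induction n with
  | zero => simpa using HomCoeff.one
  | succ n ih =>
    rw [pow_succ, Nat.succ_mul]
    exact ih.mul h

lemma HomCoeff.prod {τ κ : Type} (s : Finset κ) (P : κ → Polynomial (MvPolynomial τ F))
    (d : κ → ℕ) (h : ∀ i ∈ s, HomCoeff (d i) (P i)) : HomCoeff (∑ i ∈ s, d i) (∏ i ∈ s, P i) := by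
  classical
  induction s using Finset.induction_on with
  | empty => simpa using HomCoeff.one
  | insert a s ha ih =>
    rw [Finset.sum_insert ha, Finset.prod_insert ha]
    exact (h a (Finset.mem_insert_self _ _)).mul
      (ih fun i hi => h i (Finset.mem_insert_of_mem hi))

lemma HomCoeff.const {τ : Type} (p : Polynomial F) :
    HomCoeff 0 (p.map (C : F →+* MvPolynomial τ F)) := by
  intro k
  rw [Polynomial.coeff_map]
  exact isHomogeneous_C _ _

/-- the generic polynomial of degree `≤ M` -/
noncomputable def gen (M : ℕ) (s : σ) : Polynomial (MvPolynomial (σ × Fin (M + 1)) F) :=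
  ∑ l : Fin (M + 1), Polynomial.C (X (s, l)) * Polynomial.X ^ (l : ℕ)

lemma homCoeff_gen (M : ℕ) (s : σ) : HomCoeff 1 (gen (F := F) M s) := by
  refine HomCoeff.sum _ _ fun l _ => ?_
  intro k
  rw [Polynomial.coeff_C_mul_X_pow]
  split_ifs
  · exact isHomogeneous_X _ _
  · exact isHomogeneous_zero _ _ _

lemma natDegree_gen (M : ℕ) (s : σ) : (gen (F := F) M s).natDegree ≤ M := by
  refine Polynomial.natDegree_sum_le_of_forall_le _ _ fun l _ => ?_
  exact (Polynomial.natDegree_C_mul_X_pow_le _ _).trans (Nat.lt_succ_iff.mp l.2)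

/-- the value of a form with polynomial coefficients at the generic polynomials -/
noncomputable def subst (M : ℕ) (f : MvPolynomial σ (Polynomial F)) :
    Polynomial (MvPolynomial (σ × Fin (M + 1)) F) :=
  eval₂ (Polynomial.mapRingHom (C : F →+* MvPolynomial (σ × Fin (M + 1)) F)) (gen M) f

lemma homCoeff_subst (M : ℕ) {f : MvPolynomial σ (Polynomial F)} {e : ℕ} (hf : f.IsHomogeneous e) :
    HomCoeff e (subst M f) := by
  unfold subst
  rw [eval₂_eq]
  refine HomCoeff.sum _ _ fun d hd => ?_
  have h1 : e = 0 + ∑ i ∈ d.support, d i * 1 := by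
    rw [zero_add, hf.degree_eq_sum_deg_support hd]
    simp
  rw [h1]
  refine HomCoeff.mul ?_ (HomCoeff.prod _ _ _ fun i _ => (homCoeff_gen M i).pow _)
  rw [Polynomial.coe_mapRingHom]
  exact HomCoeff.const _

lemma natDegree_subst (M : ℕ) {f : MvPolynomial σ (Polynomial F)} {e : ℕ}
    (hf : f.IsHomogeneous e) (h : ℕ) (hh : ∀ d ∈ f.support, (f.coeff d).natDegree ≤ h) :
    (subst M f).natDegree ≤ e * M + h := by
  unfold subst
  rw [eval₂_eq]
  refine Polynomial.natDegree_sum_le_of_forall_le _ _ fun d hd => ?_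
  refine Polynomial.natDegree_mul_le.trans ?_
  rw [add_comm]
  refine Nat.add_le_add ?_ ?_
  · refine (Polynomial.natDegree_prod_le _ _).trans ?_
    rw [hf.degree_eq_sum_deg_support hd, Finset.sum_mul]
    refine Finset.sum_le_sum fun i _ => ?_
    exact Polynomial.natDegree_pow_le.trans (Nat.mul_le_mul_left _ (natDegree_gen M i))
  · rw [Polynomial.coe_mapRingHom]
    exact Polynomial.natDegree_map_le.trans (hh d hd)

/-- the special value -/
lemma map_subst (M : ℕ) (f : MvPolynomial σ (Polynomial F)) (a : σ × Fin (M + 1) → F) :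
    (subst M f).map (eval a) =
      eval (fun s => ∑ l : Fin (M + 1), Polynomial.C (a (s, l)) * Polynomial.X ^ (l : ℕ)) f := by
  unfold subst
  rw [← Polynomial.coe_mapRingHom, hom_eval₂]
  have h1 : ((Polynomial.mapRingHom (eval a)).comp
      (Polynomial.mapRingHom (C : F →+* MvPolynomial (σ × Fin (M + 1)) F))) = RingHom.id _ := by
    have h2 : (eval a).comp (C : F →+* MvPolynomial (σ × Fin (M + 1)) F) = RingHom.id F := by
      ext x
      simp
    ext x
    · simp
    · simp
  rw [h1]
  rw [eval, eval₂Hom]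
  congr 1
  funext s
  simp [gen]

/-- **Lang** : systems of forms over `F[t]`, `F` finite -/
theorem exists_zero_poly [Finite F] [Fintype σ] {ι : Type} [Fintype ι]
    (f : ι → MvPolynomial σ (Polynomial F)) (e : ι → ℕ) (hf : ∀ i, (f i).IsHomogeneous (e i))
    (he : ∀ i, 0 < e i) (hN : ∑ i, e i ^ 2 < Fintype.card σ) :
    ∃ x : σ → Polynomial F, x ≠ 0 ∧ ∀ i, eval x (f i) = 0 := by
  classical
  have := Fintype.ofFinite F
  obtain ⟨p, hp⟩ := CharP.exists F
  have hpp : p.Prime := CharP.char_is_prime F p
  -- a bound for the degrees of the coefficients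
  obtain ⟨h, hh⟩ : ∃ h : ℕ, ∀ i, ∀ d ∈ (f i).support, ((f i).coeff d).natDegree ≤ h := by
    refine ⟨∑ i, ∑ d ∈ (f i).support, ((f i).coeff d).natDegree, fun i d hd => ?_⟩
    exact (Finset.single_le_sum (f := fun d => ((f i).coeff d).natDegree)
      (fun _ _ => Nat.zero_le _) hd).trans
      (Finset.single_le_sum (f := fun i => ∑ d ∈ (f i).support, ((f i).coeff d).natDegree)
        (fun _ _ => Nat.zero_le _) (Finset.mem_univ i))
  set M : ℕ := (h + 1) * ∑ i, e i with hM
  let G : (Σ i : ι, Fin (e i * M + h + 1)) → MvPolynomial (σ × Fin (M + 1)) F := fun q =>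
    (subst M (f q.1)).coeff q.2
  have hG : ∀ q, (G q).IsHomogeneous (e q.1) := fun q => homCoeff_subst M (hf q.1) _
  have hsum : ∑ q, (G q).totalDegree < Fintype.card (σ × Fin (M + 1)) := by
    calc ∑ q, (G q).totalDegree ≤ ∑ q : (Σ i : ι, Fin (e i * M + h + 1)), e q.1 :=
          Finset.sum_le_sum fun q _ => (hG q).totalDegree_le
      _ = ∑ i, (e i * M + h + 1) * e i := by
          rw [Fintype.sum_sigma]
          refine Finset.sum_congr rfl fun i _ => ?_
          simp
      _ = (∑ i, e i ^ 2) * M + (h + 1) * ∑ i, e i := by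
          rw [Finset.sum_mul, Finset.mul_sum, ← Finset.sum_add_distrib]
          refine Finset.sum_congr rfl fun i _ => ?_
          ring
      _ = (∑ i, e i ^ 2 + 1) * M := by
          rw [← hM]
          ring
      _ ≤ Fintype.card σ * M := Nat.mul_le_mul_right _ hN
      _ < Fintype.card (σ × Fin (M + 1)) := by
          rw [Fintype.card_prod, Fintype.card_fin]
          have : 0 < Fintype.card σ := by omega
          nlinarith
  have hdvd := char_dvd_card_solutions_of_fintype_sum_lt p hsum
  -- a nonzero solution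
  have h0 : ∀ q, eval (0 : σ × Fin (M + 1) → F) (G q) = 0 := by
    intro q
    have h2 := eval_smul (hG q) 0 (0 : σ × Fin (M + 1) → F)
    rw [zero_pow (he q.1).ne', zero_mul, zero_smul] at h2
    exact h2
  obtain ⟨a, ha0, ha⟩ : ∃ a : σ × Fin (M + 1) → F, a ≠ 0 ∧ ∀ q, eval a (G q) = 0 := by
    by_contra hcon
    push Not at hcon
    have h1 : Fintype.card { x : σ × Fin (M + 1) → F // ∀ i, eval x (G i) = 0 } = 1 := by
      rw [Fintype.card_eq_one_iff]
      refine ⟨⟨0, h0⟩, fun y => ?_⟩
      by_contra hy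
      obtain ⟨q, hq⟩ := hcon y.1 fun h => hy (Subtype.ext h)
      exact hq (y.2 q)
    rw [h1] at hdvd
    exact hpp.one_lt.ne' (Nat.dvd_one.mp hdvd)
  refine ⟨fun s => ∑ l : Fin (M + 1), Polynomial.C (a (s, l)) * Polynomial.X ^ (l : ℕ), ?_, ?_⟩
  · intro hx
    apply ha0
    funext ⟨s, l⟩
    have h1 := congrArg (fun P : Polynomial F => P.coeff l) (congrFun hx s)
    simp only [Polynomial.finsetSum_coeff, Polynomial.coeff_C_mul_X_pow, Pi.zero_apply,
      Polynomial.coeff_zero] at h1
    rw [Finset.sum_eq_single l] at h1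
    · simpa using h1
    · intro l' _ hl'
      rw [if_neg fun h => hl' (Fin.ext h.symm)]
    · intro h
      exact absurd (Finset.mem_univ _) h
  · intro i
    rw [← map_subst]
    ext k
    rw [Polynomial.coeff_map, Polynomial.coeff_zero]
    by_cases hk : k < e i * M + h + 1
    · exact ha ⟨i, ⟨k, hk⟩⟩
    · rw [Polynomial.coeff_eq_zero_of_natDegree_lt, map_zero]
      have := natDegree_subst M (hf i) h (hh i)
      omega

/-- **Lang** : the field `F(t)`, `F` finite -/
theorem hasC2_fractionRing [Finite F] (K : Type*) [Field K] [Algebra (Polynomial F) K]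
    [IsFractionRing (Polynomial F) K] : HasC2 K := by
  classical
  intro ι σ _ _ f e hf he hN
  -- clear the denominators
  have h1 : ∀ i, ∃ (b : Polynomial F) (g : MvPolynomial σ (Polynomial F)), b ≠ 0 ∧
      g.IsHomogeneous (e i) ∧ map (algebraMap (Polynomial F) K) g =
        C (algebraMap (Polynomial F) K b) * f i := by
    intro i
    obtain ⟨b, hb⟩ := IsLocalization.exist_integer_multiples_of_finset
      (nonZeroDivisors (Polynomial F)) (Finset.image (fun d => (f i).coeff d) (f i).support)
    have h2 : ∀ d, ∃ c : Polynomial F, algebraMap (Polynomial F) K c =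
        algebraMap (Polynomial F) K b * (f i).coeff d := by
      intro d
      by_cases hd : d ∈ (f i).support
      · obtain ⟨c, hc⟩ := hb _ (Finset.mem_image_of_mem _ hd)
        exact ⟨c, by rw [hc, Algebra.smul_def]⟩
      · exact ⟨0, by rw [map_zero, notMem_support_iff.mp hd, mul_zero]⟩
    choose c hc using h2
    refine ⟨b, ∑ d ∈ (f i).support, monomial d (c d), nonZeroDivisors.coe_ne_zero b, ?_, ?_⟩
    · refine IsHomogeneous.sum _ _ _ fun d hd => isHomogeneous_monomial _ ?_
      rw [(hf i).degree_eq_sum_deg_support hd]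
      rfl
    · rw [map_sum]
      simp only [map_monomial, hc]
      conv_rhs => rw [(f i).as_sum, Finset.mul_sum]
      refine Finset.sum_congr rfl fun d _ => ?_
      rw [C_mul_monomial]
  choose b g hb hg hgf using h1
  obtain ⟨x, hx0, hx⟩ := exists_zero_poly g e hg he hN
  refine ⟨fun s => algebraMap (Polynomial F) K (x s), fun h => hx0 ?_, fun i => ?_⟩
  · funext s
    have := congrFun h s
    exact IsFractionRing.injective (Polynomial F) K (by rw [this]; simp)
  · have h3 : eval (fun s => algebraMap (Polynomial F) K (x s))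
        (map (algebraMap (Polynomial F) K) (g i)) = 0 := by
      rw [eval_map]
      have h4 := eval₂_comp_left (algebraMap (Polynomial F) K) (RingHom.id _) x (g i)
      rw [eval₂_id, hx i, map_zero, RingHom.comp_id] at h4
      exact h4.symm
    rw [hgf, map_mul, eval_C] at h3
    rcases mul_eq_zero.mp h3 with h | h
    · exact absurd (IsFractionRing.injective (Polynomial F) K (by rw [h, map_zero])) (hb i)
    · exact h

end poly

/-! ### finite extensions -/

/-- restriction of scalars -/
theorem HasC2.of_finite {K L : Type*} [Field K] [Field L] [Algebra K L] [FiniteDimensional K L]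
    (hK : HasC2 K) : HasC2 L := by
  classical
  intro ι σ _ _ f e hf he hN
  let m : ℕ := Module.finrank K L
  let b : Module.Basis (Fin m) K L := Module.finBasis K L
  -- the form in the coordinates
  let G : ι → MvPolynomial (σ × Fin m) L := fun i =>
    aeval (fun s => ∑ j, C (b j) * X (s, j)) (f i)
  have hG : ∀ i, (G i).IsHomogeneous (e i) := by
    intro i
    have h1 := (hf i).aeval (fun s => ∑ j, C (b j) * X (s, j) : σ → MvPolynomial (σ × Fin m) L)
      (n := 1) fun s => IsHomogeneous.sum _ _ _ fun j _ => isHomogeneous_C_mul_X _ _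
    rw [one_mul] at h1
    exact h1
  let g : ι × Fin m → MvPolynomial (σ × Fin m) K := fun q =>
    ∑ d ∈ (G q.1).support, monomial d (b.repr ((G q.1).coeff d) q.2)
  have hg : ∀ q, (g q).IsHomogeneous (e q.1) := fun q =>
    IsHomogeneous.sum _ _ _ fun d hd => isHomogeneous_monomial _ (by
      rw [(hG q.1).degree_eq_sum_deg_support hd]
      rfl)
  have hcard : ∑ q : ι × Fin m, e q.1 ^ 2 < Fintype.card (σ × Fin m) := by
    rw [Fintype.sum_prod_type, Fintype.card_prod, Fintype.card_fin]
    simp only [Finset.sum_const, Finset.card_univ, Fintype.card_fin, smul_eq_mul]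
    rw [← Finset.mul_sum, mul_comm]
    exact Nat.mul_lt_mul_of_pos_right hN Module.finrank_pos
  obtain ⟨y, hy0, hy⟩ := hK (ι × Fin m) (σ × Fin m) g (fun q => e q.1) hg (fun q => he q.1) hcard
  have hval : ∀ i, eval (fun q => algebraMap K L (y q)) (G i) =
      ∑ j, (eval y (g (i, j))) • b j := by
    intro i
    have h1 : ∀ j, eval y (g (i, j)) =
        ∑ d ∈ (G i).support, b.repr ((G i).coeff d) j * ∏ q ∈ d.support, y q ^ d q := by
      intro j
      simp only [g, map_sum, eval_monomial]
      rfl
    simp only [h1, Finset.sum_smul]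
    rw [Finset.sum_comm, eval_eq]
    refine Finset.sum_congr rfl fun d _ => ?_
    have h2 : ∏ q ∈ d.support, (algebraMap K L (y q)) ^ d q =
        algebraMap K L (∏ q ∈ d.support, y q ^ d q) := by
      rw [map_prod]
      simp only [map_pow]
    rw [h2]
    conv_lhs => rw [← b.sum_repr ((G i).coeff d), Finset.sum_mul]
    refine Finset.sum_congr rfl fun j _ => ?_
    rw [mul_comm, ← Algebra.smul_def, smul_smul, mul_comm]
  refine ⟨fun s => ∑ j, y (s, j) • b j, fun h => hy0 ?_, fun i => ?_⟩
  · funext ⟨s, j⟩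
    have h1 := congrFun h s
    exact Fintype.linearIndependent_iff.mp b.linearIndependent _ h1 j
  · have h1 : eval (fun q => algebraMap K L (y q)) (G i) = 0 := by
      rw [hval i]
      exact Finset.sum_eq_zero fun j _ => by rw [hy (i, j), zero_smul]
    rw [← h1]
    simp only [G]
    rw [aeval_def, ← coe_eval₂Hom]
    have h2 := eval₂_comp_left (eval fun q => algebraMap K L (y q))
      (algebraMap L (MvPolynomial (σ × Fin m) L))
      (fun s => ∑ j, C (b j) * X (s, j)) (f i)
    rw [coe_eval₂Hom, h2]
    have h3 : (eval fun q => algebraMap K L (y q)).comp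
        (algebraMap L (MvPolynomial (σ × Fin m) L)) = RingHom.id L := by
      ext x
      simp
    rw [h3, eval₂_id]
    congr 1
    congr 1
    funext s
    simp only [Function.comp_apply, map_sum, map_mul, eval_C, eval_X, Algebra.smul_def]
    exact Finset.sum_congr rfl fun j _ => mul_comm _ _

/-! ### locally compact fields -/

/-- approximation and compactness -/
theorem HasC2.of_dense {k K : Type*} [Field k] [NontriviallyNormedField K] [ProperSpace K]
    [Algebra k K] (hd : DenseRange (algebraMap k K)) (hk : HasC2 k) : HasC2 K := by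
  classical
  intro ι σ _ _ f e hf he hN
  obtain ⟨c, hc⟩ := NormedField.exists_one_lt_norm K
  -- approximate solutions
  have h1 : ∀ n : ℕ, ∃ y : σ → K, ‖c‖⁻¹ ≤ ‖y‖ ∧ ‖y‖ ≤ 1 ∧
      ∀ i, ‖eval y (f i)‖ ≤ (f i).support.card * (1 / (n + 1 : ℝ)) := by
    intro n
    have h2 : ∀ (i : ι) (d : σ →₀ ℕ), ∃ a : k, ‖(f i).coeff d - algebraMap k K a‖ < 1 / (n + 1 : ℝ) := by
      intro i d
      obtain ⟨a, ha⟩ := hd.exists_dist_lt ((f i).coeff d) (ε := 1 / (n + 1 : ℝ)) (by positivity)
      exact ⟨a, by rwa [dist_eq_norm] at ha⟩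
    choose a ha using h2
    let g : ι → MvPolynomial σ k := fun i => ∑ d ∈ (f i).support, monomial d (a i d)
    have hg : ∀ i, (g i).IsHomogeneous (e i) := fun i =>
      IsHomogeneous.sum _ _ _ fun d hd => isHomogeneous_monomial _ (by
        rw [(hf i).degree_eq_sum_deg_support hd]
        rfl)
    obtain ⟨x, hx0, hx⟩ := hk ι σ g e hg he hN
    let x' : σ → K := fun s => algebraMap k K (x s)
    have hx' : x' ≠ 0 := by
      intro h
      apply hx0
      funext s
      have := congrFun h s
      exact (algebraMap k K).injective (by simpa [x'] using this)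
    have hgx : ∀ i, eval x' (map (algebraMap k K) (g i)) = 0 := by
      intro i
      rw [eval_map]
      have h4 := eval₂_comp_left (algebraMap k K) (RingHom.id _) x (g i)
      rw [eval₂_id, hx i, map_zero, RingHom.comp_id] at h4
      exact h4.symm
    obtain ⟨δ, hδ0, hδ1, hδ2, -⟩ := rescale_to_shell (𝕜 := K) hc one_pos hx'
    refine ⟨δ • x', by simpa using hδ2, hδ1.le, fun i => ?_⟩
    have h5 : eval (δ • x') (map (algebraMap k K) (g i)) = 0 := by
      rw [eval_smul ((hg i).map _), hgx i, mul_zero]
    have h6 : eval (δ • x') (f i) = ∑ d ∈ (f i).support,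
        ((f i).coeff d - algebraMap k K (a i d)) * ∏ s ∈ d.support, (δ • x') s ^ d s := by
      have h7 : eval (δ • x') (map (algebraMap k K) (g i)) = ∑ d ∈ (f i).support,
          algebraMap k K (a i d) * ∏ s ∈ d.support, (δ • x') s ^ d s := by
        simp only [g, map_sum, map_monomial, eval_monomial]
        rfl
      simp only [sub_mul, Finset.sum_sub_distrib]
      rw [← h7, h5, sub_zero, eval_eq]
    rw [h6]
    refine (norm_sum_le _ _).trans ?_
    rw [← nsmul_eq_mul]
    refine Finset.sum_le_card_nsmul _ _ _ fun d _ => ?_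
    rw [norm_mul, norm_prod]
    have h8 : ∏ s ∈ d.support, ‖(δ • x') s ^ d s‖ ≤ 1 := by
      refine Finset.prod_le_one (fun _ _ => norm_nonneg _) fun s _ => ?_
      rw [norm_pow]
      exact pow_le_one₀ (norm_nonneg _) ((norm_le_pi_norm _ s).trans hδ1.le)
    calc _ ≤ ‖(f i).coeff d - algebraMap k K (a i d)‖ * 1 :=
          mul_le_mul_of_nonneg_left h8 (norm_nonneg _)
      _ ≤ _ := by rw [mul_one]; exact (ha i d).le
  choose y hy1 hy2 hy3 using h1
  -- compactness
  obtain ⟨z, hz, φ, hφ, hlim⟩ := (isCompact_closedBall (0 : σ → K) 1).tendsto_subseq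
    (x := y) fun n => by rw [mem_closedBall_zero_iff]; exact hy2 n
  refine ⟨z, fun h => ?_, fun i => ?_⟩
  · have h2 : ‖c‖⁻¹ ≤ ‖z‖ := ge_of_tendsto' ((continuous_norm.tendsto z).comp hlim)
      fun n => hy1 (φ n)
    rw [h, norm_zero] at h2
    exact absurd h2 (not_le.mpr (inv_pos.mpr (one_pos.trans hc)))
  · have h2 : Filter.Tendsto (fun n => eval (y (φ n)) (f i)) Filter.atTop (nhds (eval z (f i))) :=
      ((MvPolynomial.continuous_eval (f i)).tendsto z).comp hlim
    have h3 : Filter.Tendsto (fun n => eval (y (φ n)) (f i)) Filter.atTop (nhds 0) := by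
      rw [tendsto_zero_iff_norm_tendsto_zero]
      have h4 : Filter.Tendsto (fun n : ℕ => ((f i).support.card : ℝ) * (1 / ((φ n : ℕ) + 1 : ℝ)))
          Filter.atTop (nhds 0) := by
        have h5 := (tendsto_one_div_add_atTop_nhds_zero_nat (𝕜 := ℝ)).comp hφ.tendsto_atTop
        have h6 := h5.const_mul ((f i).support.card : ℝ)
        rw [mul_zero] at h6
        exact h6
      exact squeeze_zero (fun _ => norm_nonneg _) (fun n => hy3 (φ n) i) h4
    exact tendsto_nhds_unique h2 h3

/-! ### the versions for `C2` -/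

/-- the field `F(t)`, `F` finite -/
theorem c2_fractionRing (F : Type*) [Field F] [Finite F] (K : Type*) [Field K]
    [Algebra (Polynomial F) K] [IsFractionRing (Polynomial F) K] : C2 K :=
  c2_iff.mpr (hasC2_fractionRing (F := F) K)

theorem c2_ratFunc (F : Type*) [Field F] [Finite F] : C2 (RatFunc F) :=
  c2_fractionRing F (RatFunc F)

theorem C2.of_finite {K L : Type*} [Field K] [Field L] [Algebra K L] [FiniteDimensional K L]
    (hK : C2 K) : C2 L :=
  c2_iff.mpr (HasC2.of_finite (c2_iff.mp hK))

end Pool.Agent.Helper91.ZC
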