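import Pool.Agent.Helper91.ZC.Places
import Pool.Agent.Helper72.ZC.Gen

/-!
# The origin of an affine plane curve

Let `E` be generated over `L` by `t` and `w` and let `w` be a multiple of `t` in `L[t, w]`, such that
`L[t, w]` has a point `t = w = 0`.  There is exactly one place of `E` over the origin, `t` is a
uniformiser there and the residue field is `L`.
-/

set_option autoImplicit false

namespace ZC

universe u

open Polynomial

section ev

variable {L E : Type*} [Field L] [Field E] [Algebra L E]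

/-- the value at the point `(t, w)` -/
noncomputable def ev (t w : E) : L[X][X] →+* E :=
  eval₂RingHom (aeval t : L[X] →ₐ[L] E).toRingHom w

/-- the value at the origin -/
noncomputable def ev0 : L[X][X] →+* L := (evalRingHom (0 : L)).comp (evalRingHom (0 : L[X]))

theorem ev_C (t w : E) (p : L[X]) : ev t w (C p) = aeval t p := by
  simp [ev]

theorem ev_X (t w : E) : ev (L := L) t w X = w := by
  simp [ev]

theorem ev_CC (t w : E) (a : L) : ev t w (C (C a)) = algebraMap L E a := by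
  rw [ev_C, aeval_C]

theorem ev_CX (t w : E) : ev (L := L) t w (C X) = t := by
  rw [ev_C, aeval_X]

theorem decomp (a : L[X][X]) : ∃ b₁ b₂ : L[X][X], a = C (C (ev0 a)) + C X * b₁ + X * b₂ := by
  refine ⟨C (a.coeff 0).divX, a.divX, ?_⟩
  have h1 : a = X * a.divX + C (a.coeff 0) := (X_mul_divX_add a).symm
  have h2 : a.coeff 0 = X * (a.coeff 0).divX + C ((a.coeff 0).coeff 0) :=
    (X_mul_divX_add (a.coeff 0)).symm
  have h3 : ev0 a = (a.coeff 0).coeff 0 := by
    rw [ev0, RingHom.comp_apply, coe_evalRingHom, coe_evalRingHom, ← coeff_zero_eq_eval_zero,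
      ← coeff_zero_eq_eval_zero]
  rw [h3]
  conv_lhs => rw [h1, h2]
  rw [C_add, C_mul]
  ring

/-- The hypotheses on the curve. -/
structure Origin (L : Type*) {E : Type*} [Field L] [Field E] [Algebra L E] (t w : E) : Prop where
  frac : ∀ e : E, ∃ a b : L[X][X], ev t w b ≠ 0 ∧ e = ev t w a / ev t w b
  ker : ∀ a : L[X][X], ev t w a = 0 → ev0 a = 0
  wt : ∃ H : L[X][X], w = t * ev t w H
  ht : t ≠ 0

variable {t w : E}

theorem Origin.dvd (h : Origin L t w) (a : L[X][X]) (ha : ev0 a = 0) :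
    ∃ a' : L[X][X], ev t w a = t * ev t w a' := by
  obtain ⟨b₁, b₂, hb⟩ := decomp a
  obtain ⟨H, hH⟩ := h.wt
  refine ⟨b₁ + H * b₂, ?_⟩
  have h1 : w * ev t w b₂ = t * ev t w H * ev t w b₂ := by rw [← hH]
  rw [hb, ha, map_add, map_add, map_mul, map_mul, ev_CC, ev_CX, ev_X, map_zero, map_add, map_mul,
    h1]
  ring

end ev

section place

variable {K L E : Type u} [Field K] [Field L] [Field E] [Algebra K L] [Algebra L E] [Algebra K E]
  [IsScalarTower K L E] [Algebra.IsAlgebraic K L] {t w : E}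

namespace Place

theorem ev_mem (P : Place K E) (ht : t ∈ P.A) (hw : w ∈ P.A) (a : L[X][X]) : ev t w a ∈ P.A := by
  have h1 : ∀ p : L[X], aeval t p ∈ P.A := by
    intro p
    rw [aeval_eq_sum_range]
    refine Subring.sum_mem P.A.toSubring fun i _ => ?_
    rw [Algebra.smul_def]
    exact P.A.mul_mem _ _ (mem_of_algebraic P _) (pow_mem ht i)
  change eval₂ _ w a ∈ P.A
  rw [eval₂_eq_sum_range]
  exact Subring.sum_mem P.A.toSubring fun i _ => P.A.mul_mem _ _ (h1 _) (pow_mem hw i)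

/-- the residue of a function at the origin -/
theorem residue_ev (P : Place K E) (ht : t ∈ P.A.nonunits) (hw : w ∈ P.A.nonunits) (a : L[X][X])
    (ha : ev t w a ∈ P.A) :
    IsLocalRing.residue P.A ⟨ev t w a, ha⟩ = emRes P (ev0 a) := by
  have htA : t ∈ P.A := P.A.nonunits_subset ht
  have hwA : w ∈ P.A := P.A.nonunits_subset hw
  obtain ⟨b₁, b₂, hb⟩ := decomp a
  have h1 : (⟨ev t w a, ha⟩ : P.A) = emL (L := L) P (ev0 a) +
      ⟨t, htA⟩ * ⟨ev t w b₁, P.ev_mem htA hwA b₁⟩ + ⟨w, hwA⟩ * ⟨ev t w b₂, P.ev_mem htA hwA b₂⟩ := by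
    apply Subtype.ext
    change ev t w a = algebraMap L E (ev0 a) + t * ev t w b₁ + w * ev t w b₂
    conv_lhs => rw [hb]
    rw [map_add, map_add, map_mul, map_mul, ev_CC, ev_CX, ev_X]
  have h2 : ∀ {s : E} (hs : s ∈ P.A) (_ : s ∈ P.A.nonunits), IsLocalRing.residue P.A ⟨s, hs⟩ = 0 := by
    intro s hs hs'
    rw [IsLocalRing.residue_eq_zero_iff]
    exact (ValuationSubring.valuation_lt_one_iff P.A _).2 ((P.A.mem_nonunits_iff).1 hs')
  rw [h1, map_add, map_add, map_mul, map_mul, h2 htA ht, h2 hwA hw, zero_mul, zero_mul, add_zero,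
    add_zero]
  rfl

theorem val_ev (P : Place K E) (ht : t ∈ P.A.nonunits) (hw : w ∈ P.A.nonunits) (a : L[X][X])
    (ha : ev0 a ≠ 0) : P.A.valuation (ev t w a) = 1 := by
  have hm := P.ev_mem (P.A.nonunits_subset ht) (P.A.nonunits_subset hw) a
  have h1 : IsUnit (⟨ev t w a, hm⟩ : P.A) := by
    rw [← IsLocalRing.residue_ne_zero_iff_isUnit, residue_ev P ht hw]
    exact (_root_.map_ne_zero _).2 ha
  exact (ValuationSubring.valuation_eq_one_iff P.A _).1 h1

end Place

theorem nonunits_mul {A : ValuationSubring E} {a b : E} (ha : a ∈ A.nonunits) (hb : b ∈ A) :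
    a * b ∈ A.nonunits := by
  rw [A.mem_nonunits_iff] at ha ⊢
  rw [map_mul]
  have h1 := (A.valuation_le_one_iff b).2 hb
  calc A.valuation a * A.valuation b ≤ A.valuation a * 1 := mul_le_mul_right h1 _
    _ < 1 := by rwa [mul_one]

/-- `P` is a place over the origin -/
def Over (P : Place K E) (t w : E) : Prop := t ∈ P.A.nonunits ∧ w ∈ P.A

namespace Origin

variable (h : Origin L t w)
include h

theorem over_w {P : Place K E} (hP : Over P t w) : w ∈ P.A.nonunits := by
  obtain ⟨H, hH⟩ := h.wt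
  rw [hH]
  exact nonunits_mul hP.1 (P.ev_mem (P.A.nonunits_subset hP.1) hP.2 H)

/-- existence of a place over the origin -/
theorem exists_over (K : Type u) [Field K] [Algebra K L] [Algebra K E] [IsScalarTower K L E]
    [Algebra.IsAlgebraic K L] : ∃ P : Place K E, Over P t w := by
  let A : Subring E := (ev (L := L) t w).range
  let s : A := ⟨t, C X, ev_CX t w⟩
  have hI : Ideal.span {s} ≠ ⊤ := by
    intro h'
    have h1 : (1 : A) ∈ Ideal.span {s} := by rw [h']; trivial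
    rw [Ideal.mem_span_singleton] at h1
    obtain ⟨⟨_, ⟨b, rfl⟩⟩, hb1⟩ := h1
    have h2 : (1 : E) = t * ev t w b := congrArg Subtype.val hb1
    have h3 : ev t w (1 - C X * b) = 0 := by
      rw [map_sub, map_one, map_mul, ev_CX, ← h2, sub_self]
    have h4 := h.ker _ h3
    rw [map_sub, map_one, map_mul] at h4
    have h5 : ev0 (C X : L[X][X]) = 0 := by simp [ev0]
    rw [h5, zero_mul, sub_zero] at h4
    exact one_ne_zero h4
  obtain ⟨B, hAB, hB⟩ := Ideal.image_subset_nonunits_valuationSubring (Ideal.span {s}) hI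
  have htB : t ∈ B.nonunits := hB ⟨s, Ideal.subset_span rfl, rfl⟩
  refine ⟨⟨B, ?_, fun a => hAB ⟨C (C (algebraMap K L a)), ?_⟩⟩, htB, hAB ⟨X, ev_X t w⟩⟩
  · intro hT
    rw [B.mem_nonunits_iff_or] at htB
    rcases htB with h' | h'
    · exact h.ht h'
    · apply h'
      rw [hT]
      trivial
  · rw [ev_CC, ← IsScalarTower.algebraMap_apply K L E]

/-- every function is a power of `t` times a unit -/
theorem rep_ev (hE : HRel K E) {P : Place K E} (hP : Over P t w) (a : L[X][X])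
    (ha : ev t w a ≠ 0) : ∃ (k : ℕ) (b : L[X][X]), ev0 b ≠ 0 ∧ ev t w a = t ^ k * ev t w b := by
  have ho := P.isOrd_of hE
  have ht1 : 0 < P.ord t := (ho.pos_iff h.ht).2 hP.1
  have key : ∀ (N : ℕ) (a : L[X][X]), ev t w a ≠ 0 → P.ord (ev t w a) ≤ N →
      ∃ (k : ℕ) (b : L[X][X]), ev0 b ≠ 0 ∧ ev t w a = t ^ k * ev t w b := by
    intro N
    induction N with
    | zero =>
      intro a ha hN
      refine ⟨0, a, fun h0 => ?_, by rw [pow_zero, one_mul]⟩
      obtain ⟨a', ha'⟩ := h.dvd a h0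
      have h1 : ev t w a' ≠ 0 := fun h2 => ha (by rw [ha', h2, mul_zero])
      have h2 := ho.mul _ _ h.ht h1
      rw [← ha'] at h2
      have h3 := (ho.nonneg _ h1).2 (P.ev_mem (P.A.nonunits_subset hP.1) hP.2 a')
      push_cast at hN
      omega
    | succ N ih =>
      intro a ha hN
      by_cases h0 : ev0 a = 0
      · obtain ⟨a', ha'⟩ := h.dvd a h0
        have h1 : ev t w a' ≠ 0 := fun h2 => ha (by rw [ha', h2, mul_zero])
        have h2 := ho.mul _ _ h.ht h1
        rw [← ha'] at h2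
        obtain ⟨k, b, hb0, hb⟩ := ih a' h1 (by push_cast at hN; omega)
        exact ⟨k + 1, b, hb0, by rw [ha', hb, pow_succ']; ring⟩
      · exact ⟨0, a, h0, by rw [pow_zero, one_mul]⟩
  exact key (P.ord (ev t w a)).toNat a ha (Int.self_le_toNat _)

theorem rep (hE : HRel K E) {P : Place K E} (hP : Over P t w) (e : E) (he : e ≠ 0) :
    ∃ (m : ℤ) (b₁ b₂ : L[X][X]), ev0 b₁ ≠ 0 ∧ ev0 b₂ ≠ 0 ∧
      e = t ^ m * (ev t w b₁ / ev t w b₂) := by
  obtain ⟨a, b, hb, rfl⟩ := h.frac e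
  have ha : ev t w a ≠ 0 := fun h0 => he (by rw [h0, zero_div])
  obtain ⟨k, b₁, hb₁, h1⟩ := h.rep_ev hE hP a ha
  obtain ⟨l, b₂, hb₂, h2⟩ := h.rep_ev hE hP b hb
  refine ⟨(k : ℤ) - l, b₁, b₂, hb₁, hb₂, ?_⟩
  rw [h1, h2, zpow_sub₀ h.ht, zpow_natCast, zpow_natCast, mul_div_mul_comm]

theorem val_rep {P : Place K E} (hP : Over P t w) (m : ℤ) (b₁ b₂ : L[X][X]) (h₁ : ev0 b₁ ≠ 0)
    (h₂ : ev0 b₂ ≠ 0) : P.A.valuation (t ^ m * (ev t w b₁ / ev t w b₂)) = P.A.valuation t ^ m := by
  rw [map_mul, map_div₀, P.val_ev hP.1 (h.over_w hP) _ h₁, P.val_ev hP.1 (h.over_w hP) _ h₂,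
    div_one, mul_one, map_zpow₀]

omit [Algebra K L] [IsScalarTower K L E] [Algebra.IsAlgebraic K L] in
theorem val_le_one_iff {P : Place K E} (hP : Over P t w) (m : ℤ) :
    P.A.valuation t ^ m ≤ 1 ↔ 0 ≤ m := by
  have h1 : P.A.valuation t < 1 := (P.A.mem_nonunits_iff).1 hP.1
  have h0 : 0 < P.A.valuation t := zero_lt_iff.2 ((Valuation.ne_zero_iff _).2 h.ht)
  have hmono : StrictAnti fun n : ℤ => P.A.valuation t ^ n := zpow_right_strictAnti₀ h0 h1
  rw [← zpow_zero (P.A.valuation t)]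
  exact hmono.le_iff_ge

/-- there is only one place over the origin -/
theorem unique (hE : HRel K E) {P P' : Place K E} (hP : Over P t w) (hP' : Over P' t w) :
    P = P' := by
  apply Place.ext_A
  ext e
  by_cases he : e = 0
  · rw [he]
    exact ⟨fun _ => P'.A.zero_mem, fun _ => P.A.zero_mem⟩
  obtain ⟨m, b₁, b₂, h₁, h₂, rfl⟩ := h.rep hE hP e he
  rw [← ValuationSubring.valuation_le_one_iff, ← ValuationSubring.valuation_le_one_iff,
    h.val_rep hP m b₁ b₂ h₁ h₂, h.val_rep hP' m b₁ b₂ h₁ h₂, h.val_le_one_iff hP,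
    h.val_le_one_iff hP']

/-- `t` is a uniformiser at the origin -/
theorem ord_one (hE : HRel K E) {P : Place K E} (hP : Over P t w) : P.ord t = 1 := by
  have ho := P.isOrd_of hE
  have ht1 : 0 < P.ord t := (ho.pos_iff h.ht).2 hP.1
  obtain ⟨e, he, he1⟩ := ho.surj
  obtain ⟨m, b₁, b₂, h₁, h₂, rfl⟩ := h.rep hE hP e he
  have hu : ∀ b : L[X][X], ev0 b ≠ 0 → P.ord (ev t w b) = 0 := fun b hb =>
    P.ord_of_unit (P.val_ev hP.1 (h.over_w hP) b hb)
  have hne : ∀ b : L[X][X], ev0 b ≠ 0 → ev t w b ≠ 0 := by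
    intro b hb h0
    have := P.val_ev hP.1 (h.over_w hP) b hb
    rw [h0, map_zero] at this
    exact zero_ne_one this
  rw [ho.mul _ _ (zpow_ne_zero _ h.ht) (div_ne_zero (hne _ h₁) (hne _ h₂)), ho.zpow h.ht,
    ho.div (hne _ h₁) (hne _ h₂), hu _ h₁, hu _ h₂, sub_zero, add_zero] at he1
  rcases Int.isUnit_iff.1 (IsUnit.of_mul_eq_one m (by rw [mul_comm]; exact he1) :
    IsUnit (P.ord t)) with h5 | h5
  · exact h5
  · omega

/-- the residue field of the origin is `L` -/
theorem emRes_bij (hE : HRel K E) {P : Place K E} (hP : Over P t w) :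
    Function.Bijective (Place.emRes (L := L) P) := by
  refine ⟨(Place.emRes (L := L) P).injective, fun y => ?_⟩
  obtain ⟨⟨e, he⟩, rfl⟩ := IsLocalRing.residue_surjective y
  by_cases he0 : e = 0
  · subst he0
    refine ⟨0, ?_⟩
    rw [map_zero]
    exact (map_zero (IsLocalRing.residue P.A)).symm
  obtain ⟨m, b₁, b₂, h₁, h₂, rfl⟩ := h.rep hE hP e he0
  have h3 : 0 ≤ m := by
    rw [← ValuationSubring.valuation_le_one_iff, h.val_rep hP m b₁ b₂ h₁ h₂,
      h.val_le_one_iff hP] at he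
    exact he
  have hw := h.over_w hP
  have htA := P.A.nonunits_subset hP.1
  have hb2 : ev t w b₂ ≠ 0 := by
    intro h0
    have := P.val_ev hP.1 hw b₂ h₂
    rw [h0, map_zero] at this
    exact zero_ne_one this
  obtain ⟨k, rfl⟩ := Int.eq_ofNat_of_zero_le h3
  have h4 : (⟨_, he⟩ : P.A) * ⟨ev t w b₂, P.ev_mem htA hP.2 b₂⟩ =
      ⟨t, htA⟩ ^ k * ⟨ev t w b₁, P.ev_mem htA hP.2 b₁⟩ := by
    apply Subtype.ext
    change t ^ (k : ℤ) * (ev t w b₁ / ev t w b₂) * ev t w b₂ = t ^ k * ev t w b₁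
    rw [zpow_natCast, mul_assoc, div_mul_cancel₀ _ hb2]
  have h5 := congrArg (IsLocalRing.residue P.A) h4
  rw [map_mul, map_mul, P.residue_ev hP.1 hw, P.residue_ev hP.1 hw, map_pow] at h5
  have ht0 : IsLocalRing.residue P.A ⟨t, htA⟩ = 0 := by
    rw [IsLocalRing.residue_eq_zero_iff]
    exact (ValuationSubring.valuation_lt_one_iff P.A _).2 ((P.A.mem_nonunits_iff).1 hP.1)
  have hb2' : Place.emRes P (ev0 b₂) ≠ 0 := (_root_.map_ne_zero _).2 h₂
  refine ⟨(0 : L) ^ k * ev0 b₁ / ev0 b₂, ?_⟩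
  rw [map_div₀, map_mul, map_pow, map_zero, div_eq_iff hb2', h5, ht0]

/-- the residue field of the origin is `L` -/
noncomputable def resEquiv (hE : HRel K E) {P : Place K E} (hP : Over P t w) : L ≃ₐ[K] P.res :=
  AlgEquiv.ofBijective (Place.emRes P) (h.emRes_bij hE hP)

end Origin

end place

end ZC
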