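import Pool.Agent.Helper33.ZC.Exist
import Pool.Agent.Helper33.ZC.DegZ
import Pool.Agent.Helper25.PC.ChowDeg
import Pool.Agent.Helper91.ZC.Origin

/-!
# Rational equivalence of two points of a plane curve

Let the hypersurface `V` meet the line `x z` only in `x` and, simply, in `z`, and the line `x z'` only
in `x`.  Then `x` and `z` are rationally equivalent on `V`.
-/

set_option autoImplicit false

namespace ZC

universe u

open Polynomial

section factor

variable {L : Type*} [Field L]

theorem exists_factor {G : L[X][X]} (hG : G ≠ 0) (h0 : ev0 G = 0) :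
    ∃ G₁ : L[X][X], Irreducible G₁ ∧ G₁ ∣ G ∧ ev0 G₁ = 0 := by
  classical
  obtain ⟨v, hv⟩ := UniqueFactorizationMonoid.factors_prod hG
  have h1 : ev0 (UniqueFactorizationMonoid.factors G).prod = 0 := by
    have h2 := congrArg ev0 hv
    rw [h0, map_mul] at h2
    exact (mul_eq_zero.1 h2).resolve_right (v.isUnit.map ev0).ne_zero
  rw [map_multiset_prod, Multiset.prod_eq_zero_iff, Multiset.mem_map] at h1
  obtain ⟨G₁, hG₁, h2⟩ := h1
  exact ⟨G₁, UniqueFactorizationMonoid.irreducible_of_factor G₁ hG₁,
    UniqueFactorizationMonoid.dvd_of_mem_factors hG₁, h2⟩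

/-- the function field of an irreducible plane curve -/
theorem exists_functionField {R : Type u} [CommRing R] [IsDomain R] {G : R} (hG : Prime G) :
    ∃ (E : Type u) (_ : Field E) (ψ : R →+* E), (∀ e : E, ∃ a b : R, ψ b ≠ 0 ∧ e = ψ a / ψ b) ∧
      ∀ a : R, ψ a = 0 ↔ G ∣ a := by
  have hprime : (Ideal.span {G}).IsPrime := (Ideal.span_singleton_prime hG.ne_zero).2 hG
  refine ⟨FractionRing (R ⧸ Ideal.span {G}), inferInstance,
    (algebraMap (R ⧸ Ideal.span {G}) (FractionRing (R ⧸ Ideal.span {G}))).comp
      (Ideal.Quotient.mk (Ideal.span {G})), fun e => ?_, fun a => ?_⟩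
  · obtain ⟨a, b, hb, rfl⟩ := IsFractionRing.div_surjective (A := R ⧸ Ideal.span {G}) e
    obtain ⟨a, rfl⟩ := Ideal.Quotient.mk_surjective a
    obtain ⟨b, rfl⟩ := Ideal.Quotient.mk_surjective b
    refine ⟨a, b, fun h2 => ?_, rfl⟩
    exact nonZeroDivisors.ne_zero hb
      ((map_eq_zero_iff _ (IsFractionRing.injective (R ⧸ Ideal.span {G}) _)).1 h2)
  · rw [RingHom.comp_apply, map_eq_zero_iff _ (IsFractionRing.injective (R ⧸ Ideal.span {G}) _),
      Ideal.Quotient.eq_zero_iff_mem, Ideal.mem_span_singleton]

/-- the restriction to the line `t = 0` -/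
noncomputable def rho : L[X][X] →+* L[X] := mapRingHom (evalRingHom (0 : L))

theorem rho_CC (a : L) : rho (C (C a)) = C a := by simp [rho]

theorem rho_CX : rho (C X : L[X][X]) = 0 := by simp [rho]

theorem rho_X : rho (X : L[X][X]) = X := by simp [rho]

theorem dvd_of_rho {G : L[X][X]} (h : rho G = 0) : C X ∣ G := by
  rw [C_dvd_iff_dvd_coeff]
  intro i
  rw [X_dvd_iff, coeff_zero_eq_eval_zero]
  have h1 := congrArg (coeff · i) h
  simpa [rho] using h1

end factor

section isCurve

variable {K L E : Type u} [Field K] [Field L] [Field E] [Algebra K L] [Algebra L E] [Algebra K E]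
  [IsScalarTower K L E] [FiniteDimensional K L] {t w : E}

theorem Origin.isCurveField (h : Origin L t w) (G : L[X][X]) (hG : ev t w G = 0)
    (hG1 : G.coeff 1 ≠ 0) : IsCurveField K E := by
  obtain ⟨P, hP⟩ := h.exists_over K
  obtain ⟨P', hP'⟩ := h.exists_over L
  have htL : Transcendental L t := P'.transcendental hP'.1 h.ht
  refine ⟨t, P.transcendental hP.1 h.ht, ?_⟩
  set F := IntermediateField.adjoin K {t} with hF
  let b := Module.finBasis K L
  set S : Set E := Set.range fun i => algebraMap L E (b i) with hS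
  have hfin : Finite S := Set.finite_range _
  have hint : ∀ a : L, IsIntegral F (algebraMap L E a) := fun a =>
    ((Algebra.IsIntegral.isIntegral (R := K) a).algebraMap (B := E)).tower_top
  set F' := IntermediateField.adjoin F S with hF'
  have hfd : FiniteDimensional F F' := by
    apply IntermediateField.finiteDimensional_adjoin
    rintro _ ⟨i, rfl⟩
    exact hint _
  have hL : ∀ a : L, algebraMap L E a ∈ F' := by
    intro a
    rw [← b.sum_repr a, map_sum]
    refine sum_mem fun i _ => ?_
    rw [Algebra.smul_def, map_mul, ← IsScalarTower.algebraMap_apply K L E]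
    refine mul_mem ?_ (IntermediateField.subset_adjoin F S ⟨i, rfl⟩)
    exact F'.algebraMap_mem (algebraMap K F (b.repr a i))
  have ht : t ∈ F' := F'.algebraMap_mem ⟨t, IntermediateField.mem_adjoin_simple_self K _⟩
  have hp : ∀ p : L[X], aeval t p ∈ F' := by
    intro p
    rw [aeval_eq_sum_range]
    refine sum_mem fun i _ => ?_
    rw [Algebra.smul_def]
    exact mul_mem (hL _) (pow_mem ht i)
  let φ : L[X] →+* F' := (aeval t : L[X] →ₐ[L] E).toRingHom.codRestrict F'.toSubring hp
  have hw : IsAlgebraic F' w := by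
    refine ⟨G.map φ, fun h0 => ?_, ?_⟩
    · have h1 := congrArg (fun q => ((coeff q 1 : F') : E)) h0
      simp only [coeff_map, coeff_zero] at h1
      have h2 : aeval t (G.coeff 1) = 0 := h1
      exact hG1 ((transcendental_iff.1 htL) _ h2)
    · rw [aeval_def, eval₂_map]
      exact hG
  have hfd2 : FiniteDimensional F' (IntermediateField.adjoin F' {w}) :=
    IntermediateField.adjoin.finiteDimensional hw.isIntegral
  have hev : ∀ a : L[X][X], ev t w a ∈ IntermediateField.adjoin F' {w} := by
    intro a
    change eval₂ _ w a ∈ _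
    rw [eval₂_eq_sum_range]
    refine sum_mem fun i _ => mul_mem ?_
      (pow_mem (IntermediateField.mem_adjoin_simple_self F' w) i)
    exact (IntermediateField.adjoin F' {w}).algebraMap_mem ⟨_, hp _⟩
  have htop : IntermediateField.adjoin F' {w} = ⊤ := by
    rw [eq_top_iff]
    rintro e -
    obtain ⟨a, b', -, rfl⟩ := h.frac e
    exact div_mem (hev a) (hev b')
  rw [htop] at hfd2
  have hfd3 : FiniteDimensional F' E :=
    Module.Finite.equiv (IntermediateField.topEquiv (F := F') (E := E)).toLinearEquiv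
  exact Module.Finite.trans F' E

end isCurve

section curve

variable {K L : Type u} [Field K] [Field L] [Algebra K L] {n : ℕ}

/-- The restriction of the form to the plane through `x`, `z`, `z'` in affine coordinates. -/
noncomputable def planeForm (V : ProjVar K n 1) (x z z' : Fin (n + 1) → L) : L[X][X] :=
  MvPolynomial.aeval (fun i => X * C (C (x i)) + C (C (z i)) + C X * C (C (z' i))) (V.form 0)

theorem algebraMap_LXX (a : K) : algebraMap K L[X][X] a = C (C (algebraMap K L a)) := rfl

theorem ev_planeForm (V : ProjVar K n 1) (x z z' : Fin (n + 1) → L) {E : Type*} [Field E]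
    [Algebra L E] [Algebra K E] [IsScalarTower K L E] (t w : E) :
    ev t w (planeForm V x z z') = MvPolynomial.aeval (fun i => w * algebraMap L E (x i) +
      algebraMap L E (z i) + t * algebraMap L E (z' i)) (V.form 0) := by
  unfold planeForm
  rw [MvPolynomial.aeval_def, MvPolynomial.hom_eval₂, MvPolynomial.aeval_def]
  have h1 : (ev t w).comp (algebraMap K L[X][X]) = algebraMap K E := by
    ext a
    rw [RingHom.comp_apply, algebraMap_LXX, ev_CC, ← IsScalarTower.algebraMap_apply K L E]
  rw [h1]
  congr 1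
  funext i
  rw [map_add, map_add, map_mul, map_mul, ev_X, ev_CX, ev_CC, ev_CC, ev_CC]

theorem rho_planeForm {V : ProjVar K n 1} {x z : Fin (n + 1) → L} (z' : Fin (n + 1) → L) {c : L}
    (h : Osc V x z c) : rho (planeForm V x z z') = C c * X := by
  have h0 := h L[X] X 1
  rw [one_pow, mul_one] at h0
  rw [← algebraMap_eq, ← h0]
  unfold planeForm
  rw [MvPolynomial.aeval_def, MvPolynomial.hom_eval₂, MvPolynomial.aeval_def]
  have h1 : rho.comp (algebraMap K L[X][X]) = algebraMap K L[X] := by
    ext1 a
    rw [RingHom.comp_apply, algebraMap_LXX, rho_CC]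
    rfl
  rw [h1]
  congr 1
  funext i
  rw [map_add, map_add, map_mul, map_mul, rho_X, rho_CX, rho_CC, rho_CC, rho_CC, zero_mul,
    add_zero, one_mul]
  rfl

/-- The plane curve through the origin. -/
theorem exists_curve [FiniteDimensional K L] {V : ProjVar K n 1} {x z : Fin (n + 1) → L}
    (z' : Fin (n + 1) → L) {c : L} (hc : c ≠ 0) (h : Osc V x z c) :
    ∃ (E : Type u) (_ : Field E) (_ : Algebra L E) (_ : Algebra K E) (_ : IsScalarTower K L E)
      (t w : E), Origin L t w ∧ IsCurveField K E ∧
        MvPolynomial.aeval (fun i => w * algebraMap L E (x i) + algebraMap L E (z i) +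
          t * algebraMap L E (z' i)) (V.form 0) = 0 := by
  classical
  set G := planeForm V x z z' with hGdef
  have hr : rho G = C c * X := rho_planeForm z' h
  have hG0 : G ≠ 0 := by
    intro h0
    rw [h0, map_zero] at hr
    have h1 := congrArg (coeff · 1) hr
    simp at h1
    exact hc h1.symm
  have hev0 : ∀ a : L[X][X], ev0 a = (rho a).coeff 0 := by
    intro a
    obtain ⟨b₁, b₂, hb⟩ := decomp a
    conv_rhs => rw [hb]
    rw [map_add, map_add, map_mul, map_mul, rho_CC, rho_CX, rho_X]
    simp
  have h0 : ev0 G = 0 := by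
    rw [hev0, hr]
    simp
  obtain ⟨G₁, hirr, ⟨G₂, hG₂⟩, h1⟩ := exists_factor hG0 h0
  obtain ⟨E, iE, ψ, hfrac, hker⟩ := exists_functionField hirr.prime
  let aL : Algebra L E := (ψ.comp (C.comp C)).toAlgebra
  let aK : Algebra K E := ((algebraMap L E).comp (algebraMap K L)).toAlgebra
  have hT : IsScalarTower K L E := IsScalarTower.of_algebraMap_eq fun a => rfl
  have hev : ∀ a : L[X][X], ev (ψ (C X)) (ψ X) a = ψ a := by
    intro a
    have : ev (L := L) (ψ (C X)) (ψ X) = ψ := by
      refine Polynomial.ringHom_ext' (Polynomial.ringHom_ext' ?_ ?_) ?_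
      · ext1 a
        rw [RingHom.comp_apply, RingHom.comp_apply, ev_CC]
        rfl
      · rw [RingHom.comp_apply, RingHom.comp_apply, ev_CX]
      · rw [ev_X]
    rw [this]
  have hψG : ψ G = 0 := (hker G).2 ⟨G₂, hG₂⟩
  have hO : Origin L (ψ (C X)) (ψ X) := by
    refine ⟨fun e => ?_, fun a ha => ?_, ?_, fun h2 => ?_⟩
    · obtain ⟨a, b, hb, rfl⟩ := hfrac e
      exact ⟨a, b, by rwa [hev], by rw [hev, hev]⟩
    · rw [hev] at ha
      obtain ⟨b, hb⟩ := (hker a).1 ha
      rw [hb, map_mul, h1, zero_mul]
    · have h2 : rho (G - C (C c) * X) = 0 := by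
        rw [map_sub, map_mul, hr, rho_CC, rho_X, sub_self]
      obtain ⟨H, hH⟩ := dvd_of_rho h2
      refine ⟨-C (C c⁻¹) * H, ?_⟩
      rw [hev]
      have h3 : X = C (C c⁻¹) * G + C X * (-C (C c⁻¹) * H) := by
        have h4 : (C (C c⁻¹) : L[X][X]) * C (C c) = 1 := by
          rw [← C_mul, ← C_mul, inv_mul_cancel₀ hc]
          rfl
        have h5 : G = C X * H + C (C c) * X := by rw [← hH]; ring
        rw [h5]
        linear_combination (-X) * h4
      conv_lhs => rw [h3]
      rw [map_add, map_mul, hψG, mul_zero, zero_add, map_mul]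
    · have h3 := (hker _).1 h2
      have h4 : Irreducible (C X : L[X][X]) := (Polynomial.prime_C_iff.2 prime_X).irreducible
      obtain ⟨b, hb⟩ := hirr.dvd_symm h4 h3
      rw [hG₂, hb, map_mul, map_mul, rho_CX, zero_mul, zero_mul] at hr
      have h5 := congrArg (coeff · 1) hr
      simp at h5
      exact hc h5.symm
  have hG1 : G.coeff 1 ≠ 0 := by
    intro h2
    have h3 : (rho G).coeff 1 = 0 := by
      rw [rho, coe_mapRingHom, coeff_map, h2, map_zero]
    rw [hr] at h3
    simp at h3
    exact hc h3
  refine ⟨E, iE, aL, aK, hT, ψ (C X), ψ X, hO,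
    hO.isCurveField G (by rw [hev, hψG]) hG1, ?_⟩
  rw [← ev_planeForm, ← hGdef, hev, hψG]

end curve

end ZC
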