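import Pool.Agent.Helper91.ZC.Plane

/-!
# Rational equivalence of two points of a plane curve, conclusion
-/

set_option autoImplicit false

namespace ZC

universe u

section pts

variable {K L : Type u} [Field K] [Field L] [Algebra K L] {n r : ℕ}

/-- the image of a point under an embedding -/
theorem isPt_emb (V : ProjVar K n r) {M : Type u} [Field M] [Algebra K M] (σ : L →ₐ[K] M)
    {x : Fin (n + 1) → L} (hx : V.IsPt x) : V.IsPt fun i => σ (x i) := by
  refine ⟨fun h => hx.1 (funext fun i => ?_), fun i => ?_⟩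
  · have h1 := congrFun h i
    simpa using h1
  · have h2 : MvPolynomial.aeval (fun i => σ (x i)) (V.form i) =
        σ (MvPolynomial.aeval x (V.form i)) := (MvPolynomial.comp_aeval_apply x σ (V.form i)).symm
    rw [h2, hx.2 i, map_zero]

/-- the cycle of the image of a point -/
theorem ptCycle_emb (V : ProjVar K n r) {M : Type u} [Field M] [Algebra K M]
    [FiniteDimensional K M] [FiniteDimensional K L] (σ : L →ₐ[K] M) {x : Fin (n + 1) → L}
    (hx : V.IsPt x) : ∃ m : ℤ, ptCycle V (fun i => σ (x i)) (isPt_emb V σ hx) =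
      Finsupp.single (closedPt V x hx) m ∧
        m * ((closedPt V x hx).deg : ℤ) = Module.finrank K M := by
  have halg : Algebra.IsAlgebraic K M := inferInstance
  have h1 : closedPt V (fun i => σ (x i)) (isPt_emb V σ hx) = closedPt V x hx := by
    symm
    exact closedPt_eq_mk V hx ((IsAlgClosed.lift : M →ₐ[K] AlgebraicClosure K).comp σ) _ 1
      one_ne_zero fun i => by rw [one_mul]; rfl
  refine ⟨(Module.finrank (coordField K fun i => σ (x i)) M : ℤ), ?_, ?_⟩
  · rw [ptCycle, dif_pos halg, h1]
  · have h2 := degZ_ptCycle V (fun i => σ (x i)) (isPt_emb V σ hx)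
    rw [ptCycle, dif_pos halg, h1, degZ_single] at h2
    exact h2

/-- a line as a point over the rational function field -/
theorem isPt_line (V : ProjVar K n r) (x y : Fin (n + 1) → L) (hx : x ≠ 0)
    (h : ∀ i, MvPolynomial.aeval (fun i => RatFunc.C (x i) + RatFunc.X * RatFunc.C (y i) :
      Fin (n + 1) → RatFunc L) (V.form i) = 0) :
    V.IsPt (fun i => RatFunc.C (x i) + RatFunc.X * RatFunc.C (y i) :
      Fin (n + 1) → RatFunc L) := by
  refine ⟨fun h0 => hx ?_, h⟩
  funext i
  have h1 := congrFun h0 i
  have h2 : algebraMap (Polynomial L) (RatFunc L)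
      (Polynomial.C (x i) + Polynomial.X * Polynomial.C (y i)) = 0 := by
    rw [map_add, map_mul, RatFunc.algebraMap_C, RatFunc.algebraMap_C, RatFunc.algebraMap_X]
    exact h1
  have h3 := (map_eq_zero_iff _ (RatFunc.algebraMap_injective L)).mp h2
  have h4 := congrArg (Polynomial.coeff · 0) h3
  simpa using h4

end pts

section main

variable {K L E : Type u} [Field K] [Field L] [Field E] [Algebra K L] [Algebra L E] [Algebra K E]
  [IsScalarTower K L E] [FiniteDimensional K L] {n : ℕ}

/-- a place at which the point of the curve tends to a given point -/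
theorem ptCycle_red_of {r : ℕ} (V : ProjVar K n r) (P : Place K E) (y : Fin (n + 1) → E) (hy : V.IsPt y)
    (g : E) (y' : Fin (n + 1) → P.A) (h : ∀ i, y i = g * (y' i : E)) {M : Type u} [Field M]
    [Algebra K M] (σ : M ≃ₐ[K] P.res) {x : Fin (n + 1) → M} (hx : V.IsPt x)
    (hr : ∀ i, IsLocalRing.residue P.A (y' i) = σ (x i)) :
    ptCycle V (red P y hy.1) (red_isPt V P y hy) = ptCycle V x hx := by
  obtain ⟨i₀, hi₀⟩ : ∃ i, x i ≠ 0 := by
    by_contra hcon
    push Not at hcon
    exact hx.1 (funext hcon)
  have hu : IsUnit (y' i₀) := by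
    rw [← IsLocalRing.residue_ne_zero_iff_isUnit, hr]
    exact (_root_.map_ne_zero σ).2 hi₀
  obtain ⟨c, hc, h1⟩ := red_eq P y hy.1 g y' h i₀ hu
  exact (ptCycle_congr V σ c hc hx _ fun i => by rw [h1 i, hr]).symm

theorem residue_nonunit {A : ValuationSubring E} {s : E} (hs : s ∈ A.nonunits) (hsA : s ∈ A) :
    IsLocalRing.residue A ⟨s, hsA⟩ = 0 := by
  rw [IsLocalRing.residue_eq_zero_iff]
  exact (ValuationSubring.valuation_lt_one_iff A _).2 ((A.mem_nonunits_iff).1 hs)

/-- The cycle at a zero or a pole of `t` which does not lie over the origin. -/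
theorem away (V : ProjVar K n 1) {x z z' : Fin (n + 1) → L} (hx : V.IsPt x) {e : L}
    (h2 : Tan V x z' e) (h3 : ∀ a : L, z' ≠ a • x) {t w : E} (ht : t ≠ 0)
    (hy : V.IsPt fun i => w * algebraMap L E (x i) + algebraMap L E (z i) +
      t * algebraMap L E (z' i)) (P : Place K E) [FiniteDimensional K P.res]
    (hP : ¬ Over P t w) (hord : t ∈ P.A.nonunits ∨ t⁻¹ ∈ P.A.nonunits) :
    ptCycle V (red P _ hy.1) (red_isPt V P _ hy) -
      ptCycle V (fun i => Place.emRes (L := L) P (x i)) (isPt_emb V (Place.emRes P) hx) ∈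
        ratEquiv V := by
  -- the case in which `w` dominates
  have hdom : w⁻¹ ∈ P.A.nonunits → t / w ∈ P.A.nonunits → w ≠ 0 →
      ptCycle V (red P _ hy.1) (red_isPt V P _ hy) =
        ptCycle V (fun i => Place.emRes (L := L) P (x i)) (isPt_emb V (Place.emRes P) hx) := by
    intro hw1 hw2 hw0
    have hw1A := P.A.nonunits_subset hw1
    have hw2A := P.A.nonunits_subset hw2
    refine ptCycle_red_of V P _ hy w (fun i => Place.emL P (x i) +
      ⟨w⁻¹, hw1A⟩ * Place.emL P (z i) + ⟨t / w, hw2A⟩ * Place.emL P (z' i)) (fun i => ?_)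
      (AlgEquiv.refl : P.res ≃ₐ[K] P.res) _ fun i => ?_
    · change w * algebraMap L E (x i) + algebraMap L E (z i) + t * algebraMap L E (z' i) =
        w * (algebraMap L E (x i) + w⁻¹ * algebraMap L E (z i) + t / w * algebraMap L E (z' i))
      field_simp
    · rw [map_add, map_add, map_mul, map_mul, residue_nonunit hw1 hw1A, residue_nonunit hw2 hw2A,
        zero_mul, zero_mul, add_zero, add_zero]
      rfl
  rcases hord with ht1 | ht1
  · -- `t` has a zero, `w` has a pole
    have hw : w ∉ P.A := fun hw => hP ⟨ht1, hw⟩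
    have hw0 : w ≠ 0 := by
      rintro rfl
      exact hw P.A.zero_mem
    have hw1 : w⁻¹ ∈ P.A.nonunits := by
      rw [P.A.mem_nonunits_iff_or, inv_inv]
      exact Or.inr hw
    rw [hdom hw1 (by rw [div_eq_mul_inv]; exact nonunits_mul ht1 (P.A.nonunits_subset hw1)) hw0,
      sub_self]
    exact (ratEquiv V).zero_mem
  · by_cases hw : w / t ∈ P.A
    · -- the point tends to a point of the line through `x` and `z'`
      have ht1A := P.A.nonunits_subset ht1
      set a : P.res := IsLocalRing.residue P.A ⟨w / t, hw⟩ with ha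
      let aR : Algebra L P.res := (Place.emRes (L := L) P).toRingHom.toAlgebra
      have hT : IsScalarTower K L P.res :=
        IsScalarTower.of_algebraMap_eq fun b => ((Place.emRes (L := L) P).commutes b).symm
      set y' : Fin (n + 1) → P.A := fun i => ⟨w / t, hw⟩ * Place.emL P (x i) +
        ⟨t⁻¹, ht1A⟩ * Place.emL P (z i) + Place.emL P (z' i) with hy'
      set v : Fin (n + 1) → P.res := fun i =>
        a * Place.emRes (L := L) P (x i) + Place.emRes (L := L) P (z' i) with hv
      have hres : ∀ i, IsLocalRing.residue P.A (y' i) = v i := by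
        intro i
        rw [hy', map_add, map_add, map_mul, map_mul, residue_nonunit ht1 ht1A, zero_mul, add_zero]
        rfl
      have hyy : ∀ i, w * algebraMap L E (x i) + algebraMap L E (z i) +
          t * algebraMap L E (z' i) = t * (y' i : E) := by
        intro i
        change _ = t * (w / t * algebraMap L E (x i) + t⁻¹ * algebraMap L E (z i) +
          algebraMap L E (z' i))
        field_simp
      -- `v` is not zero
      have hv0 : v ≠ 0 := by
        intro hv0
        obtain ⟨j, hj⟩ := Function.ne_iff.1 hx.1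
        have h4 : ∀ i, a * Place.emRes (L := L) P (x i) + Place.emRes (L := L) P (z' i) = 0 :=
          fun i => congrFun hv0 i
        apply h3 (z' j / x j)
        funext i
        have h5 : Place.emRes (L := L) P (x j) ≠ 0 := (_root_.map_ne_zero _).2 hj
        have h6 := h4 i
        have h7 := h4 j
        refine (Place.emRes (L := L) P).toRingHom.injective ?_
        change Place.emRes (L := L) P (z' i) = Place.emRes (L := L) P (z' j / x j * x i)
        rw [map_mul, map_div₀, div_mul_eq_mul_div, eq_div_iff h5]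
        linear_combination (Place.emRes (L := L) P (x j)) * h6 -
          (Place.emRes (L := L) P (x i)) * h7
      obtain ⟨i₀, hi₀⟩ := Function.ne_iff.1 hv0
      have hu : IsUnit (y' i₀) := by
        rw [← IsLocalRing.residue_ne_zero_iff_isUnit, hres]
        exact hi₀
      obtain ⟨c, hc, hred⟩ := red_eq P _ hy.1 t y' hyy i₀ hu
      have hredv : ∀ i, red P _ hy.1 i = c * v i := fun i => by rw [hred i, hres]
      have hvX : V.IsPt v := by
        refine ⟨hv0, fun i => ?_⟩
        have h4 := (red_isPt V P _ hy).2 i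
        have h5 : red P _ hy.1 = fun i => c * v i := funext hredv
        rw [h5, aeval_scale (V.hom i)] at h4
        exact (mul_eq_zero.1 h4).resolve_left (pow_ne_zero _ hc)
      have hcyc : ptCycle V (red P _ hy.1) (red_isPt V P _ hy) = ptCycle V v hvX :=
        (ptCycle_congr V (AlgEquiv.refl : P.res ≃ₐ[K] P.res) c hc hvX _ hredv).symm
      have he : e = 0 := by
        have h4 := h2 P.res a 1
        have h5 : (fun i => a * algebraMap L P.res (x i) + 1 * algebraMap L P.res (z' i)) = v := by
          funext i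
          rw [one_mul]
          rfl
        rw [h5, hvX.2 0, one_pow, mul_one] at h4
        exact (map_eq_zero_iff _ (algebraMap L P.res).injective).1 h4.symm
      have hline : V.IsPt (fun i => RatFunc.C (Place.emRes (L := L) P (x i)) +
          RatFunc.X * RatFunc.C (v i) : Fin (n + 1) → RatFunc P.res) := by
        refine isPt_line V _ _ (isPt_emb V (Place.emRes P) hx).1 fun i => ?_
        rw [Subsingleton.elim i 0]
        have h4 := h2 (RatFunc P.res) (1 + RatFunc.X * RatFunc.C a) RatFunc.X
        rw [he, map_zero, zero_mul] at h4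
        rw [← h4]
        refine congrArg (fun v => MvPolynomial.aeval v (V.form 0)) (funext fun k => ?_)
        change RatFunc.C (Place.emRes (L := L) P (x k)) + RatFunc.X * RatFunc.C (v k) =
          (1 + RatFunc.X * RatFunc.C a) * RatFunc.C (Place.emRes (L := L) P (x k)) +
            RatFunc.X * RatFunc.C (Place.emRes (L := L) P (z' k))
        rw [hv]
        simp only [map_add, map_mul]
        ring
      rw [hcyc, ← neg_sub]
      exact (ratEquiv V).neg_mem
        (line_equiv V _ v (isPt_emb V (Place.emRes P) hx) hvX hline)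
    · -- `w` dominates `t`
      have hw0 : w ≠ 0 := by
        rintro rfl
        apply hw
        rw [zero_div]
        exact P.A.zero_mem
      have h4 : t / w ∈ P.A.nonunits := by
        rw [P.A.mem_nonunits_iff_or, inv_div]
        exact Or.inr hw
      have h5 : w⁻¹ ∈ P.A.nonunits := by
        have h6 : w⁻¹ = t / w * t⁻¹ := by field_simp
        rw [h6]
        exact nonunits_mul h4 (P.A.nonunits_subset ht1)
      rw [hdom h5 h4 hw0, sub_self]
      exact (ratEquiv V).zero_mem

end main

section final

variable {K L : Type u} [Field K] [Field L] [Algebra K L] [FiniteDimensional K L] {n : ℕ}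

/-- **The plane relation.** -/
theorem plane_equiv (V : ProjVar K n 1) {x z z' : Fin (n + 1) → L} (hx : V.IsPt x)
    (hz : V.IsPt z) {c e : L} (hc : c ≠ 0) (h1 : Osc V x z c) (h2 : Tan V x z' e)
    (h3 : ∀ a : L, z' ≠ a • x) : ptCycle V x hx - ptCycle V z hz ∈ ratEquiv V := by
  classical
  obtain ⟨E, _, _, _, _, t, w, hO, hE, hG⟩ := exists_curve z' hc h1
  obtain ⟨P₀, hP₀⟩ := hO.exists_over K
  have hfr : ∀ P : Place K E, FiniteDimensional K P.res := fun P => P.finite_residue hE
  have htA := P₀.A.nonunits_subset hP₀.1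
  have hw₀ := hO.over_w hP₀
  set y : Fin (n + 1) → E := fun i => w * algebraMap L E (x i) + algebraMap L E (z i) +
      t * algebraMap L E (z' i) with hydef
  set y' : Fin (n + 1) → P₀.A := fun i => ⟨w, hP₀.2⟩ * Place.emL P₀ (x i) +
      Place.emL P₀ (z i) + ⟨t, htA⟩ * Place.emL P₀ (z' i) with hy'
  have hyy : ∀ i, y i = 1 * (y' i : E) := by
    intro i
    rw [one_mul]
    rfl
  have hres : ∀ i, IsLocalRing.residue P₀.A (y' i) = Place.emRes (L := L) P₀ (z i) := by
    intro i
    rw [hy', map_add, map_add, map_mul, map_mul, residue_nonunit hP₀.1 htA,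
      residue_nonunit hw₀ hP₀.2, zero_mul, zero_mul, zero_add, add_zero]
    rfl
  have hy : V.IsPt y := by
    refine ⟨fun h0 => ?_, fun i => ?_⟩
    · obtain ⟨j, hj⟩ := Function.ne_iff.1 hz.1
      have h4 := congrFun h0 j
      rw [hyy, one_mul] at h4
      have h5 : y' j = 0 := Subtype.ext h4
      have h6 := hres j
      rw [h5, map_zero] at h6
      exact (_root_.map_ne_zero (Place.emRes (L := L) P₀)).2 hj h6.symm
    · rw [Subsingleton.elim i 0]
      exact hG
  have hcurve : curveCycle V y hy t ∈ ratEquiv V :=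
    AddSubgroup.subset_closure ⟨E, inferInstance, inferInstance, hE, y, hy, t, hO.ht, rfl⟩
  have h0 : ptCycle V (red P₀ y hy.1) (red_isPt V P₀ y hy) = ptCycle V z hz :=
    ptCycle_red_of V P₀ y hy 1 y' hyy (hO.resEquiv hE.hRel hP₀) hz fun i => by
      rw [hres]
      rfl
  obtain ⟨hfin, hsum⟩ := sum_ord_deg hE t hO.ht
  have hord1 : P₀.ord t = 1 := hO.ord_one hE.hRel hP₀
  -- multiplicities
  have hm : ∀ P : Place K E, ∃ m : ℤ,
      ptCycle V (fun i => Place.emRes (L := L) P (x i)) (isPt_emb V (Place.emRes P) hx) =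
        Finsupp.single (closedPt V x hx) m ∧ m * ((closedPt V x hx).deg : ℤ) = P.deg := by
    intro P
    exact ptCycle_emb V (Place.emRes P) hx
  choose m hm1 hm2 using hm
  obtain ⟨mx, hx1, hx2⟩ := ptCycle_emb V (AlgHom.id K L) hx
  have hx1' : ptCycle V x hx = Finsupp.single (closedPt V x hx) mx := hx1
  have hdegL : (0 : ℤ) < Module.finrank K L := by exact_mod_cast Module.finrank_pos
  have hdegQ : ((closedPt V x hx).deg : ℤ) ≠ 0 := by
    intro h4
    rw [h4, mul_zero] at hx2
    omega
  have hdeg0 : (P₀.deg : ℤ) = Module.finrank K L := by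
    have := (hO.resEquiv (K := K) hE.hRel hP₀).toLinearEquiv.finrank_eq
    rw [this]
    rfl
  -- the sums
  set T := hfin.toFinset with hT
  have hP₀T : P₀ ∈ T := by
    rw [hT, Set.Finite.mem_toFinset]
    change P₀.ord t ≠ 0
    rw [hord1]
    exact one_ne_zero
  have hcyc : curveCycle V y hy t = ∑ P ∈ T, P.ord t •
      ptCycle V (red P y hy.1) (red_isPt V P y hy) := by
    refine finsum_eq_sum_of_support_subset _ fun P hP => ?_
    rw [hT, Set.Finite.coe_toFinset]
    intro h4
    apply hP
    change P.ord t • _ = 0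
    rw [h4, zero_smul]
  have hsumT : ∑ P ∈ T, P.ord t * (P.deg : ℤ) = 0 := by
    rw [← hsum]
    refine (finsum_eq_sum_of_support_subset _ fun P hP => ?_).symm
    rw [hT, Set.Finite.coe_toFinset]
    intro h4
    apply hP
    change P.ord t * (P.deg : ℤ) = 0
    rw [h4, zero_mul]
  rw [← Finset.add_sum_erase T _ hP₀T, hord1, one_smul, h0] at hcyc
  rw [← Finset.add_sum_erase T _ hP₀T, hord1, one_mul] at hsumT
  have hmem : ∑ P ∈ T.erase P₀, P.ord t •
      (ptCycle V (red P y hy.1) (red_isPt V P y hy) - Finsupp.single (closedPt V x hx) (m P)) ∈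
        ratEquiv V := by
    refine (ratEquiv V).sum_mem fun P hP => (ratEquiv V).zsmul_mem ?_ _
    rw [← hm1 P]
    obtain ⟨hne, hPT⟩ := Finset.mem_erase.1 hP
    have hPord : P.ord t ≠ 0 := by
      rw [hT, Set.Finite.mem_toFinset] at hPT
      exact hPT
    have ho := P.isOrd_of hE.hRel
    have hfrP := hfr P
    refine away V hx h2 h3 hO.ht hy P (fun hPo => hne (hO.unique hE.hRel hPo hP₀)) ?_
    rcases lt_or_gt_of_ne hPord with h4 | h4
    · right
      refine (ho.pos_iff (inv_ne_zero hO.ht)).1 ?_
      rw [ho.inv hO.ht]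
      omega
    · left
      exact (ho.pos_iff hO.ht).1 h4
  have hS : ∑ P ∈ T.erase P₀, P.ord t * m P = -mx := by
    have h4 : (∑ P ∈ T.erase P₀, P.ord t * m P) * ((closedPt V x hx).deg : ℤ) =
        -mx * ((closedPt V x hx).deg : ℤ) := by
      rw [Finset.sum_mul, neg_mul, hx2, ← hdeg0]
      have h5 : ∑ P ∈ T.erase P₀, P.ord t * m P * ((closedPt V x hx).deg : ℤ) =
          ∑ P ∈ T.erase P₀, P.ord t * (P.deg : ℤ) := by
        refine Finset.sum_congr rfl fun P _ => ?_
        rw [mul_assoc, hm2]
      rw [h5]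
      linear_combination hsumT
    exact mul_right_cancel₀ hdegQ h4
  have hsingle : ∑ P ∈ T.erase P₀, P.ord t • Finsupp.single (closedPt V x hx) (m P) =
      -ptCycle V x hx := by
    rw [hx1', ← Finsupp.single_neg, ← hS, Finsupp.single_finsetSum]
    refine Finset.sum_congr rfl fun P _ => ?_
    rw [Finsupp.smul_single, smul_eq_mul]
  have h6 : ptCycle V x hx - ptCycle V z hz = ∑ P ∈ T.erase P₀, P.ord t •
      (ptCycle V (red P y hy.1) (red_isPt V P y hy) - Finsupp.single (closedPt V x hx) (m P)) -
        curveCycle V y hy t := by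
    rw [hcyc]
    simp only [smul_sub, Finset.sum_sub_distrib]
    rw [hsingle]
    abel
  rw [h6]
  exact (ratEquiv V).sub_mem hmem hcurve

end final

end ZC
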